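import Pool.Agent.Helper64.FP.Stm

set_option autoImplicit false

/-!
# Many pairs of primes with the same difference in a given range (helper57)
-/

namespace Pool.Agent.Helper64.FP.BASE

open Finset Filter Pool.Agent.Helper64.FP

/-- the primes up to `X` -/
def P (X : ℕ) : Finset ℕ := (Icc 1 X).filter Nat.Prime

theorem card_P (X : ℕ) : (P X).card = Nat.primeCounting X := by
  unfold P Nat.primeCounting Nat.primeCounting'
  rw [Nat.count_eq_card_filter_range]
  congr 1
  ext p
  simp only [mem_filter, mem_Icc, mem_range]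
  constructor
  · rintro ⟨⟨h1, h2⟩, h3⟩
    exact ⟨by omega, h3⟩
  · rintro ⟨h1, h3⟩
    exact ⟨⟨h3.one_lt.le, by omega⟩, h3⟩

/-- the number of the primes `m ≤ X` with `m + g` prime -/
def rr (X g : ℕ) : ℕ := ((Icc 1 X).filter (fun m => m.Prime ∧ (m + g).Prime)).card

theorem rr_le (X g : ℕ) : rr X g ≤ X := by
  unfold rr
  exact (card_filter_le _ _).trans (by simp)

/-- the pairs in a common block -/
def T (X G : ℕ) : Finset (ℕ × ℕ) := (P X ×ˢ P X).filter (fun x => x.1 / G = x.2 / G)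

theorem T_lower (X G : ℕ) (hG : 0 < G) : (P X).card ^ 2 ≤ (X / G + 1) * (T X G).card := by
  have h1 : (P X).card = ∑ k ∈ range (X / G + 1), ((P X).filter (fun p => p / G = k)).card := by
    refine card_eq_sum_card_fiberwise fun p hp => ?_
    have h2 := (mem_Icc.1 (mem_filter.1 hp).1).2
    exact mem_coe.2 (mem_range.2 (Nat.lt_succ_of_le (Nat.div_le_div_right h2)))
  have h3 : (T X G).card = ∑ k ∈ range (X / G + 1), ((P X).filter (fun p => p / G = k)).card ^ 2 := by
    have h4 : (T X G).card = ∑ k ∈ range (X / G + 1),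
        ((T X G).filter (fun x => x.1 / G = k)).card := by
      refine card_eq_sum_card_fiberwise fun x hx => ?_
      have h2 := (mem_Icc.1 (mem_filter.1 (mem_product.1 (mem_filter.1 hx).1).1).1).2
      exact mem_coe.2 (mem_range.2 (Nat.lt_succ_of_le (Nat.div_le_div_right h2)))
    rw [h4]
    refine sum_congr rfl fun k _ => ?_
    rw [sq, ← card_product]
    congr 1
    ext ⟨p, q⟩
    simp only [T, mem_filter, mem_product]
    constructor
    · rintro ⟨⟨⟨h5, h6⟩, h7⟩, h8⟩
      exact ⟨⟨h5, h8⟩, h6, h7.symm.trans h8⟩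
    · rintro ⟨⟨h5, h6⟩, h7, h8⟩
      exact ⟨⟨⟨h5, h7⟩, h6.trans h8.symm⟩, h6⟩
  rw [h1, h3]
  have := sq_sum_le_card_mul_sum_sq (s := range (X / G + 1))
    (f := fun k => ((P X).filter (fun p => p / G = k)).card)
  rwa [card_range] at this

theorem T_upper (X G : ℕ) (hG : 0 < G) : (T X G).card ≤ ∑ d ∈ range G, 2 * rr X d := by
  have h1 : (T X G).card = ∑ d ∈ range G, ((T X G).filter (fun x => Nat.dist x.1 x.2 = d)).card := by
    refine card_eq_sum_card_fiberwise fun x hx => ?_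
    have h2 := (mem_filter.1 hx).2
    have h3 := Nat.div_add_mod x.1 G
    have h4 := Nat.div_add_mod x.2 G
    have h5 := Nat.mod_lt x.1 hG
    have h6 := Nat.mod_lt x.2 hG
    rw [h2] at h3
    refine mem_coe.2 (mem_range.2 ?_)
    unfold Nat.dist
    omega
  rw [h1]
  refine sum_le_sum fun d _ => ?_
  have h2 : (T X G).filter (fun x => Nat.dist x.1 x.2 = d) ⊆
      (((Icc 1 X).filter (fun m => m.Prime ∧ (m + d).Prime)).image fun m => (m, m + d)) ∪
      (((Icc 1 X).filter (fun m => m.Prime ∧ (m + d).Prime)).image fun m => (m + d, m)) := by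
    rintro ⟨p, q⟩ hx
    rw [mem_filter] at hx
    obtain ⟨hx1, hx2⟩ := hx
    obtain ⟨hx3, -⟩ := mem_filter.1 hx1
    obtain ⟨hp, hq⟩ := mem_product.1 hx3
    obtain ⟨hp1, hp2⟩ := mem_filter.1 hp
    obtain ⟨hq1, hq2⟩ := mem_filter.1 hq
    simp only at hx2 hp1 hp2 hq1 hq2
    rw [mem_union, mem_image, mem_image]
    rcases le_total p q with h | h
    · left
      have hd : q = p + d := by
        unfold Nat.dist at hx2
        omega
      refine ⟨p, mem_filter.2 ⟨hp1, hp2, ?_⟩, by rw [hd]⟩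
      rw [← hd]
      exact hq2
    · right
      have hd : p = q + d := by
        unfold Nat.dist at hx2
        omega
      refine ⟨q, mem_filter.2 ⟨hq1, hq2, ?_⟩, by rw [hd]⟩
      rw [← hd]
      exact hp2
  refine (card_le_card h2).trans ((card_union_le _ _).trans ?_)
  have h3 := card_image_le (s := (Icc 1 X).filter (fun m => m.Prime ∧ (m + d).Prime))
    (f := fun m => (m, m + d))
  have h4 := card_image_le (s := (Icc 1 X).filter (fun m => m.Prime ∧ (m + d).Prime))
    (f := fun m => (m + d, m))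
  unfold rr
  omega

theorem cheb : ∀ᶠ X : ℕ in atTop, (X : ℝ) / (2 * Real.log X) ≤ ((P X).card : ℝ) := by
  have h1 : ∀ᶠ x : ℝ in atTop, Real.log x ≤ 1 / 20 * x := by
    have := (Real.isLittleO_log_id_atTop.bound (show (0 : ℝ) < 1 / 20 by norm_num))
    filter_upwards [this, eventually_ge_atTop 1] with x hx hx1
    rw [Real.norm_of_nonneg (Real.log_nonneg hx1), id, Real.norm_of_nonneg (by linarith)] at hx
    exact hx
  have h2 := (tendsto_natCast_atTop_atTop (R := ℝ)).eventually h1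
  filter_upwards [h2, eventually_ge_atTop 10] with X hX hX10
  rw [card_P]
  refine le_trans ?_ (Chebyshev.pi_ge X)
  have hX0 : (10 : ℝ) ≤ X := by exact_mod_cast hX10
  have hL : 0 < Real.log X := Real.log_pos (by linarith)
  rw [div_le_div_iff₀ (by positivity) hL]
  have h3 : Real.log ((X : ℝ) + 1) ≤ Real.log X + 1 / X := by
    have h4 : Real.log ((X : ℝ) + 1) = Real.log X + Real.log (1 + 1 / X) := by
      rw [← Real.log_mul (by positivity) (by positivity)]
      congr 1
      field_simp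
    rw [h4]
    have h5 := Real.log_le_sub_one_of_pos (show (0 : ℝ) < 1 + 1 / X by positivity)
    linarith
  have h6 : 1 / (X : ℝ) ≤ 1 / 10 := one_div_le_one_div_of_le (by norm_num) hX0
  have h7 := Real.log_two_gt_d9
  have h8 : (X : ℝ) ≤ 2 * (X * Real.log 2 - Real.log (X + 1)) := by nlinarith
  have h9 := mul_le_mul_of_nonneg_right h8 hL.le
  linarith

theorem ev_pow (s c : ℝ) (hs : 0 < s) (hc : 0 < c) :
    ∀ᶠ X : ℕ in atTop, c * (Real.log X) ^ 2 < (X : ℝ) ^ s := by
  have h1 := (isLittleO_log_rpow_rpow_atTop (s := s) 2 hs).bound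
    (show (0 : ℝ) < 1 / (2 * c) by positivity)
  have h2 := (tendsto_natCast_atTop_atTop (R := ℝ)).eventually h1
  filter_upwards [h2, eventually_ge_atTop 2] with X hX hX2
  have hX0 : (2 : ℝ) ≤ X := by exact_mod_cast hX2
  have hL : 0 < Real.log X := Real.log_pos (by linarith)
  have hp : 0 < (X : ℝ) ^ s := Real.rpow_pos_of_pos (by linarith) _
  rw [Real.norm_of_nonneg (by positivity), Real.norm_of_nonneg hp.le] at hX
  have h3 : (Real.log X) ^ (2 : ℝ) = (Real.log X) ^ 2 := by
    rw [← Real.rpow_natCast]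
    norm_num
  rw [h3] at hX
  have h4 := mul_le_mul_of_nonneg_left hX hc.le
  have h5 : c * (1 / (2 * c) * (X : ℝ) ^ s) = (X : ℝ) ^ s / 2 := by
    field_simp
  rw [h5] at h4
  linarith

theorem main : S_BASE := by
  intro δ₀ δ h0 h1 h2
  have hev : ∀ᶠ X : ℕ in atTop, ∃ g : ℕ, (X : ℝ) ^ δ₀ ≤ g ∧ (g : ℝ) ≤ (X : ℝ) ^ δ ∧
      (X : ℝ) / (Real.log X) ^ 3 ≤ (rr X g : ℝ) := by
    have hlog : ∀ᶠ X : ℕ in atTop, (64 : ℝ) < Real.log X :=
      (Real.tendsto_log_atTop.comp tendsto_natCast_atTop_atTop).eventually_gt_atTop 64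
    filter_upwards [cheb, ev_pow (δ - δ₀) 512 (by linarith) (by norm_num),
      hlog, eventually_ge_atTop 2] with X c1 c2 hL hX2
    have hX0 : (2 : ℝ) ≤ X := by exact_mod_cast hX2
    have hXp : (0 : ℝ) < X := by linarith
    have hX1 : (1 : ℝ) ≤ X := by linarith
    have hL0 : 0 < Real.log X := by linarith
    by_contra hcon
    push Not at hcon
    have hd0 : 1 ≤ (X : ℝ) ^ δ₀ := Real.one_le_rpow hX1 h0.le
    have hd1 : 1 ≤ (X : ℝ) ^ δ := Real.one_le_rpow hX1 (by linarith)
    obtain ⟨G, hG⟩ : ∃ G, G = ⌊(X : ℝ) ^ δ⌋₊ := ⟨_, rfl⟩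
    obtain ⟨D, hD⟩ : ∃ D, D = ⌈(X : ℝ) ^ δ₀⌉₊ := ⟨_, rfl⟩
    have hG1 : (G : ℝ) ≤ (X : ℝ) ^ δ := by rw [hG]; exact Nat.floor_le (by positivity)
    have hG2 : (X : ℝ) ^ δ < G + 1 := by rw [hG]; exact Nat.lt_floor_add_one _
    have hGpos : 0 < G := by
      rw [hG]
      exact Nat.floor_pos.2 hd1
    have hGpos' : (1 : ℝ) ≤ G := by exact_mod_cast hGpos
    have hG3 : (X : ℝ) ^ δ ≤ 2 * G := by linarith
    have hGX : (G : ℝ) ≤ X := hG1.trans (by
      calc (X : ℝ) ^ δ ≤ (X : ℝ) ^ (1 : ℝ) := Real.rpow_le_rpow_of_exponent_le hX1 h2.le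
        _ = X := Real.rpow_one _)
    have hD1 : (X : ℝ) ^ δ₀ ≤ D := by rw [hD]; exact Nat.le_ceil _
    have hD2 : (D : ℝ) ≤ 2 * (X : ℝ) ^ δ₀ := by
      have : (D : ℝ) < (X : ℝ) ^ δ₀ + 1 := by rw [hD]; exact Nat.ceil_lt_add_one (by positivity)
      linarith
    -- the upper bound
    have hup : ((T X G).card : ℝ) ≤ 2 * X * D + 2 * G * (X / (Real.log X) ^ 3) := by
      have h3 : ((T X G).card : ℝ) ≤ ∑ d ∈ range G, (2 : ℝ) * rr X d := by
        exact_mod_cast T_upper X G hGpos
      refine h3.trans ?_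
      rw [← sum_filter_add_sum_filter_not (range G) (fun d => d < D)]
      refine add_le_add ?_ ?_
      · have h4 : ∀ d ∈ (range G).filter (fun d => d < D), (2 : ℝ) * rr X d ≤ 2 * X := by
          intro d _
          have : (rr X d : ℝ) ≤ X := by exact_mod_cast rr_le X d
          linarith
        refine (sum_le_card_nsmul _ _ _ h4).trans ?_
        rw [nsmul_eq_mul]
        have h5 : (((range G).filter (fun d => d < D)).card : ℝ) ≤ D := by
          have : ((range G).filter (fun d => d < D)).card ≤ (range D).card := by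
            refine card_le_card fun d hd => ?_
            exact mem_range.2 (mem_filter.1 hd).2
          rw [card_range] at this
          exact_mod_cast this
        have h6 := mul_le_mul_of_nonneg_right h5 (show (0 : ℝ) ≤ 2 * X by positivity)
        linarith
      · have h4 : ∀ d ∈ (range G).filter (fun d => ¬ d < D),
            (2 : ℝ) * rr X d ≤ 2 * (X / (Real.log X) ^ 3) := by
          intro d hd
          obtain ⟨hd1, hd2⟩ := mem_filter.1 hd
          have h5 : (X : ℝ) ^ δ₀ ≤ d := hD1.trans (by exact_mod_cast not_lt.1 hd2)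
          have h6 : (d : ℝ) ≤ (X : ℝ) ^ δ := le_trans (by exact_mod_cast (mem_range.1 hd1).le) hG1
          have := hcon d h5 h6
          linarith
        refine (sum_le_card_nsmul _ _ _ h4).trans ?_
        rw [nsmul_eq_mul]
        have h5 : (((range G).filter (fun d => ¬ d < D)).card : ℝ) ≤ G := by
          have := card_filter_le (range G) (fun d => ¬ d < D)
          rw [card_range] at this
          exact_mod_cast this
        have h6 := mul_le_mul_of_nonneg_right h5
          (show (0 : ℝ) ≤ 2 * (X / (Real.log X) ^ 3) by positivity)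
        linarith
    -- the lower bound
    have hlow : ((P X).card : ℝ) ^ 2 ≤ (2 * X / G) * (T X G).card := by
      have h3 : ((P X).card : ℝ) ^ 2 ≤ (((X / G + 1 : ℕ)) : ℝ) * (T X G).card := by
        exact_mod_cast T_lower X G hGpos
      refine h3.trans (mul_le_mul_of_nonneg_right ?_ (Nat.cast_nonneg _))
      push_cast
      have h4 : ((X / G : ℕ) : ℝ) ≤ (X : ℝ) / G := Nat.cast_div_le
      have h5 : (1 : ℝ) ≤ X / G := by
        rw [le_div_iff₀ (by linarith)]
        linarith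
      have h6 : 2 * (X : ℝ) / G = X / G + X / G := by ring
      linarith
    have hsq : ((X : ℝ) / (2 * Real.log X)) ^ 2 ≤ ((P X).card : ℝ) ^ 2 :=
      pow_le_pow_left₀ (by positivity) c1 2
    have hall : ((X : ℝ) / (2 * Real.log X)) ^ 2 ≤
        (2 * X / G) * (2 * X * D + 2 * G * (X / (Real.log X) ^ 3)) :=
      hsq.trans (hlow.trans (mul_le_mul_of_nonneg_left hup (by positivity)))
    obtain ⟨L, hLd⟩ : ∃ L, L = Real.log (X : ℝ) := ⟨_, rfl⟩
    rw [← hLd] at hall hL hL0 c2
    -- `X² / (4 L²) ≤ 4 X² D / G + 4 X² / L³`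
    have e1 : (2 * (X : ℝ) / G) * (2 * X * D + 2 * G * (X / L ^ 3)) =
        4 * X ^ 2 * (D / G) + 4 * X ^ 2 / L ^ 3 := by
      field_simp
      ring
    have e2 : ((X : ℝ) / (2 * L)) ^ 2 = X ^ 2 / (4 * L ^ 2) := by
      rw [div_pow, mul_pow]
      norm_num
    rw [e1, e2] at hall
    -- `D / G ≤ 4 X ^ (δ₀ - δ)`
    have hpow : (X : ℝ) ^ δ = (X : ℝ) ^ (δ - δ₀) * (X : ℝ) ^ δ₀ := by
      rw [← Real.rpow_add hXp]
      congr 1
      ring
    have hDG : (D : ℝ) / G * (128 * L ^ 2) < 1 := by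
      rw [div_mul_eq_mul_div, div_lt_one (by linarith)]
      have h3 : (512 * L ^ 2) * (X : ℝ) ^ δ₀ < (X : ℝ) ^ δ := by
        rw [hpow]
        exact mul_lt_mul_of_pos_right c2 (by positivity)
      have h4 : (D : ℝ) * (128 * L ^ 2) ≤ 2 * (X : ℝ) ^ δ₀ * (128 * L ^ 2) :=
        mul_le_mul_of_nonneg_right hD2 (by positivity)
      linarith
    have hX2p : 0 < (X : ℝ) ^ 2 := by positivity
    have h5 : 4 * (X : ℝ) ^ 2 * (D / G) < X ^ 2 / (32 * L ^ 2) := by
      rw [lt_div_iff₀ (by positivity)]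
      nlinarith
    have h6 : 4 * (X : ℝ) ^ 2 / L ^ 3 ≤ X ^ 2 / (16 * L ^ 2) := by
      rw [div_le_div_iff₀ (by positivity) (by positivity)]
      have : L ^ 3 = L * L ^ 2 := by ring
      rw [this]
      nlinarith [mul_pos hX2p (show 0 < L ^ 2 by positivity)]
    have h7 : (X : ℝ) ^ 2 / (32 * L ^ 2) = 1 / 32 * (X ^ 2 / L ^ 2) := by ring
    have h8 : (X : ℝ) ^ 2 / (16 * L ^ 2) = 1 / 16 * (X ^ 2 / L ^ 2) := by ring
    have h9 : (X : ℝ) ^ 2 / (4 * L ^ 2) = 1 / 4 * (X ^ 2 / L ^ 2) := by ring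
    have h10 : 0 < (X : ℝ) ^ 2 / L ^ 2 := by positivity
    rw [h9] at hall
    rw [h7] at h5
    rw [h8] at h6
    linarith
  obtain ⟨X0, hX0⟩ := eventually_atTop.1 hev
  exact ⟨X0, fun X hX => hX0 X hX⟩

end Pool.Agent.Helper64.FP.BASE
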