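import Pool.Agent.Helper64.FP.Stm

/-!
# Project FP (helper64): `S_FL` and `S_LEN`
-/

set_option autoImplicit false

namespace Pool.Agent.Helper64.FP

open Finset

namespace Fl

theorem main : S_FL := by
  intro c hc0 hc1 h hh
  have hhr : (1 : ℝ) ≤ h := by exact_mod_cast hh
  have hh0 : (0 : ℝ) < h := by linarith
  set x : ℝ := (h : ℝ) ^ (1 / c) with hx
  have hx1 : 1 ≤ x := Real.one_le_rpow hhr (by positivity)
  have hxc : x ^ c = h := by
    rw [hx, ← Real.rpow_mul hh0.le, one_div, inv_mul_cancel₀ hc0.ne', Real.rpow_one]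
  have hn1 : x ≤ (⌈x⌉₊ : ℝ) := Nat.le_ceil _
  have hn2 : (⌈x⌉₊ : ℝ) < x + 1 := Nat.ceil_lt_add_one (by linarith)
  have hn0 : (0 : ℝ) < (⌈x⌉₊ : ℝ) := by linarith
  refine ⟨⌈x⌉₊, ?_, ?_, ?_⟩
  · rw [← hxc]
    exact Real.rpow_le_rpow (by linarith) hn1 hc0.le
  · have h1 : (⌈x⌉₊ : ℝ) ^ c < (x + 1) ^ c := Real.rpow_lt_rpow hn0.le hn2 hc0
    have h2 : (x + 1) ^ c ≤ x ^ c + 1 ^ c := Real.rpow_add_le_add_rpow (by linarith) (by norm_num) hc0.le hc1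
    rw [Real.one_rpow, hxc] at h2
    linarith
  · have h1 : (h : ℝ) ≤ x := by
      calc (h : ℝ) = (h : ℝ) ^ (1 : ℝ) := (Real.rpow_one _).symm
        _ ≤ (h : ℝ) ^ (1 / c) := Real.rpow_le_rpow_of_exponent_le hhr (by rw [le_div_iff₀ hc0]; linarith)
    exact_mod_cast h1.trans hn1

end Fl

namespace Len

theorem main : S_LEN := by
  intro ρ hρ g hg h3
  have hgr : (1 : ℝ) ≤ g := by exact_mod_cast hg
  have hg0 : (0 : ℝ) < g := by linarith
  have hP : (0 : ℝ) < (g : ℝ) ^ ρ := by positivity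
  -- Bernoulli
  have hb : (g : ℝ) ^ ρ + (g : ℝ) ^ (ρ - 1) ≤ ((g : ℝ) + 1) ^ ρ := by
    have h1 : 1 + ρ * (1 / (g : ℝ)) ≤ (1 + 1 / (g : ℝ)) ^ ρ :=
      one_add_mul_self_le_rpow_one_add (by have : 0 < 1 / (g : ℝ) := by positivity
                                           linarith) hρ.le
    have h2 : ((g : ℝ) + 1) ^ ρ = (g : ℝ) ^ ρ * (1 + 1 / (g : ℝ)) ^ ρ := by
      rw [← Real.mul_rpow hg0.le (by positivity)]
      congr 1
      field_simp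
    have h4 : (g : ℝ) ^ (ρ - 1) = (g : ℝ) ^ ρ * (1 / g) := by
      rw [Real.rpow_sub_one hg0.ne']
      ring
    rw [h2, h4]
    have h5 : 1 + 1 / (g : ℝ) ≤ (1 + 1 / (g : ℝ)) ^ ρ := by
      refine le_trans ?_ h1
      have : 0 < 1 / (g : ℝ) := by positivity
      nlinarith
    nlinarith
  set a := ⌈(g : ℝ) ^ ρ⌉₊ with ha
  have ha1 : (g : ℝ) ^ ρ ≤ a := Nat.le_ceil _
  have ha2 : (a : ℝ) < (g : ℝ) ^ ρ + 1 := Nat.ceil_lt_add_one hP.le
  set b := ⌊((g : ℝ) + 1) ^ ρ⌋₊ with hb'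
  have hb1 : (b : ℝ) ≤ ((g : ℝ) + 1) ^ ρ := Nat.floor_le (by positivity)
  have hb2 : ((g : ℝ) + 1) ^ ρ < b + 1 := Nat.lt_floor_add_one _
  have hab : a + 1 ≤ b := by
    have h6 : (a : ℝ) + 1 < b + 1 := by linarith
    have h7 : (a : ℝ) < b := by linarith
    have h8 : a < b := by exact_mod_cast h7
    omega
  refine ⟨a, b - 1 - a, ha1, ha2.le, ?_, ?_⟩
  · have h9 : a + (b - 1 - a) + 1 = b := by omega
    have h10 : (a : ℝ) + ((b - 1 - a : ℕ) : ℝ) + 1 = b := by exact_mod_cast h9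
    rw [h10]
    exact hb1
  · have h9 : a + (b - 1 - a) + 1 = b := by omega
    have h10 : (a : ℝ) + ((b - 1 - a : ℕ) : ℝ) + 1 = b := by exact_mod_cast h9
    linarith

end Len

end Pool.Agent.Helper64.FP
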