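import Pool.Agent.Helper64.FP.Stm2

/-!
# Project FP (helper64): `S_IND` (by helper39)
-/

set_option autoImplicit false

namespace Pool.Agent.Helper64.FP.Ind

open Finset

theorem floor_eq {h : ℕ} {y : ℝ} (h1 : (h : ℝ) ≤ y) (h2 : y < (h : ℝ) + 1) : ⌊y⌋₊ = h := by
  have h0 : (0 : ℝ) ≤ y := le_trans (Nat.cast_nonneg h) h1
  rw [Nat.floor_eq_iff h0]
  exact ⟨h1, h2⟩

/-- the last exponent -/
theorem pat_last {c : ℕ → ℝ} {l m j h : ℕ} (hj : j + 1 = l) (hc : 0 < c j) (hp : (m + h).Prime) :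
    Pat c l m j h := by
  intro y h1 h2 i hi1 hi2
  have e : i = j := by omega
  subst e
  rw [div_self hc.ne', Real.rpow_one, floor_eq h1 h2]
  exact hp

/-- the step -/
theorem pat_step {c : ℕ → ℝ} {l m j h g : ℕ} (hc : 0 < c j) (hc' : 0 < c (j + 1))
    (hp : (m + h).Prime) (hg : Pat c l m (j + 1) g) (h1 : (g : ℝ) ^ (c j / c (j + 1)) ≤ h)
    (h2 : (h : ℝ) + 1 ≤ ((g : ℝ) + 1) ^ (c j / c (j + 1))) : Pat c l m j h := by
  intro y hy1 hy2 i hi1 hi2
  rcases eq_or_lt_of_le hi1 with e | hlt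
  · subst e
    rw [div_self hc.ne', Real.rpow_one, floor_eq hy1 hy2]
    exact hp
  · have hρ : 0 < c j / c (j + 1) := div_pos hc hc'
    have hy0 : (0 : ℝ) ≤ y := le_trans (Nat.cast_nonneg h) hy1
    have hg0 : (0 : ℝ) ≤ g := Nat.cast_nonneg g
    have e1 : (g : ℝ) ≤ y ^ (1 / (c j / c (j + 1))) := by
      have h3 := Real.rpow_le_rpow (Real.rpow_nonneg hg0 _) (h1.trans hy1)
        (show 0 ≤ 1 / (c j / c (j + 1)) by positivity)
      rwa [← Real.rpow_mul hg0, mul_one_div_cancel hρ.ne', Real.rpow_one] at h3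
    have e2 : y ^ (1 / (c j / c (j + 1))) < (g : ℝ) + 1 := by
      have h3 := Real.rpow_lt_rpow hy0 (lt_of_lt_of_le hy2 h2)
        (show 0 < 1 / (c j / c (j + 1)) by positivity)
      rwa [← Real.rpow_mul (by linarith), mul_one_div_cancel hρ.ne', Real.rpow_one] at h3
    have h4 := hg _ e1 e2 i hlt hi2
    rw [← Real.rpow_mul hy0] at h4
    have e3 : 1 / (c j / c (j + 1)) * (c i / c (j + 1)) = c i / c j := by
      field_simp
    rwa [e3] at h4

theorem main (hPR : S_PR) (hSTG : S_STG) : S_IND := by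
  intro c l m hc hcc
  have key : ∀ k j : ℕ, j + 1 + k = l → ∃ B X0 : ℕ, ∀ X : ℕ, X0 ≤ X →
      (X : ℝ) / (Real.log X) ^ B ≤ (({h : ℕ | h ≤ X ∧ Pat c l m j h} : Set ℕ).ncard : ℝ) := by
    intro k
    induction k with
    | zero =>
      intro j hj
      obtain ⟨X0, hX0⟩ := hPR m
      refine ⟨2, X0, fun X hX => (hX0 X hX).trans ?_⟩
      have hfin : ({h : ℕ | h ≤ X ∧ Pat c l m j h} : Set ℕ).Finite :=
        (Set.finite_Iic X).subset fun h hh => hh.1
      refine Nat.cast_le.2 (Set.ncard_le_ncard ?_ hfin)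
      rintro h ⟨hh1, hh2⟩
      exact ⟨hh1, pat_last (by omega) (hc j (by omega)) hh2⟩
    | succ k ih =>
      intro j hj
      obtain ⟨B, X1, hX1⟩ := ih (j + 1) (by omega)
      have hcj := hc j (by omega)
      have hcj' := hc (j + 1) (by omega)
      have hlt := hcc j (by omega)
      set ρ : ℝ := c j / c (j + 1) with hρdef
      have hρ : 3 / 2 < ρ := by
        rw [hρdef, lt_div_iff₀ hcj']
        linarith
      have hρ0 : 0 < ρ := by linarith
      obtain ⟨B', X2, hX2⟩ := hSTG ρ hρ m (B + 1)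
      have ev1 : ∀ᶠ X : ℕ in Filter.atTop, ((X1 : ℝ) + 4) ≤ (X : ℝ) ^ (1 / ρ) :=
        ((tendsto_rpow_atTop (show 0 < 1 / ρ by positivity)).comp
          tendsto_natCast_atTop_atTop).eventually_ge_atTop _
      have ev2 : ∀ᶠ X : ℕ in Filter.atTop, (2 : ℝ) ≤ Real.log X :=
        (Real.tendsto_log_atTop.comp tendsto_natCast_atTop_atTop).eventually_ge_atTop _
      have ev3 : ∀ᶠ X : ℕ in Filter.atTop, max X2 3 ≤ X := Filter.eventually_ge_atTop _
      obtain ⟨X0, hX0⟩ := Filter.eventually_atTop.1 (ev1.and (ev2.and ev3))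
      refine ⟨B', X0, fun X hX => ?_⟩
      obtain ⟨e1, e2, e3⟩ := hX0 X hX
      have hX3 : 3 ≤ X := le_trans (le_max_right _ _) e3
      have hX3' : (3 : ℝ) ≤ X := by exact_mod_cast hX3
      set Z : ℝ := (X : ℝ) ^ (1 / ρ) with hZ
      have hZ0 : 4 ≤ Z := le_trans (by have : (0 : ℝ) ≤ X1 := Nat.cast_nonneg _; linarith) e1
      set Y : ℕ := ⌊Z⌋₊ - 1 with hY
      have hfl1 : (⌊Z⌋₊ : ℝ) ≤ Z := Nat.floor_le (by linarith)
      have hfl2 : Z < (⌊Z⌋₊ : ℝ) + 1 := Nat.lt_floor_add_one Z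
      have hfl3 : 3 ≤ ⌊Z⌋₊ := by
        rw [Nat.le_floor_iff (by linarith)]
        push_cast
        linarith
      have hYc : (Y : ℝ) = (⌊Z⌋₊ : ℝ) - 1 := by
        rw [hY, Nat.cast_sub (by omega)]
        simp
      have hY1 : (Y : ℝ) + 1 ≤ Z := by linarith
      have hY2 : Z / 2 ≤ Y := by linarith
      have hYX1 : X1 ≤ Y := by
        have : (X1 : ℝ) ≤ Y := by linarith
        exact_mod_cast this
      have hZX : Z ≤ X := by
        calc Z ≤ (X : ℝ) ^ (1 : ℝ) := by
              refine Real.rpow_le_rpow_of_exponent_le (by linarith) ?_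
              rw [div_le_one hρ0]
              linarith
          _ = X := Real.rpow_one _
      have hlogY : 0 < Real.log Y := Real.log_pos (by linarith)
      have hlogYX : Real.log Y ≤ Real.log X := Real.log_le_log (by linarith) (by linarith)
      classical
      set 𝒢 : Finset ℕ := (range (Y + 1)).filter (fun g => Pat c l m (j + 1) g) with h𝒢
      have hcard : (({h : ℕ | h ≤ Y ∧ Pat c l m (j + 1) h} : Set ℕ).ncard) = 𝒢.card := by
        rw [← Set.ncard_coe_finset]
        congr 1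
        ext h
        simp [h𝒢]
      have hG1 : ∀ g ∈ 𝒢, ((g : ℝ) + 1) ^ ρ ≤ X := by
        intro g hg
        have hg1 : g ≤ Y := by
          have := mem_range.1 (mem_filter.1 hg).1
          omega
        have hg2 : (g : ℝ) + 1 ≤ Z := by
          have : (g : ℝ) ≤ Y := by exact_mod_cast hg1
          linarith
        have h4 := Real.rpow_le_rpow (by positivity) hg2 hρ0.le
        refine h4.trans (le_of_eq ?_)
        rw [hZ, ← Real.rpow_mul (by linarith), one_div_mul_cancel hρ0.ne', Real.rpow_one]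
      have hG2 : (X : ℝ) ^ (1 / ρ) / (Real.log X) ^ (B + 1) ≤ 𝒢.card := by
        have h4 := hX1 Y hYX1
        rw [hcard] at h4
        refine le_trans ?_ h4
        have hl : (0 : ℝ) < Real.log X := by linarith
        rw [← hZ, div_le_div_iff₀ (by positivity) (by positivity)]
        have h5 : Real.log Y ^ B ≤ Real.log X ^ B := pow_le_pow_left₀ hlogY.le hlogYX _
        have h6 : Z * Real.log Y ^ B ≤ Z * Real.log X ^ B :=
          mul_le_mul_of_nonneg_left h5 (by linarith)
        refine h6.trans ?_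
        rw [pow_succ]
        have h7 : (0 : ℝ) < Real.log X ^ B := by positivity
        have h8 : Z ≤ Y * Real.log X := by nlinarith
        calc Z * Real.log X ^ B ≤ (Y * Real.log X) * Real.log X ^ B :=
              mul_le_mul_of_nonneg_right h8 h7.le
          _ = Y * (Real.log X ^ B * Real.log X) := by ring
      have h9 := hX2 X (le_trans (le_max_left _ _) e3) 𝒢 hG1 hG2
      refine h9.trans ?_
      have hfin : ({h : ℕ | h ≤ X ∧ Pat c l m j h} : Set ℕ).Finite :=
        (Set.finite_Iic X).subset fun h hh => hh.1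
      refine Nat.cast_le.2 (Set.ncard_le_ncard ?_ hfin)
      rintro h ⟨hh1, hh2, g, hg, hg1, hg2⟩
      exact ⟨hh1, pat_step hcj hcj' hh2 (mem_filter.1 hg).2 hg1 hg2⟩
  intro j hj
  exact key (l - 1 - j) j (by omega)

end Pool.Agent.Helper64.FP.Ind
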