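import Pool.Agent.Helper64.FP.Stm2

set_option autoImplicit false

/-!
# Enough primes `m + h` (module PR, helper9)
-/

namespace Pool.Agent.Helper64.FP.Pr

open Finset Filter

lemma log_le_mul {c : ℝ} (hc : 0 < c) : ∀ᶠ x : ℝ in atTop, Real.log x ≤ c * x := by
  filter_upwards [Real.isLittleO_log_id_atTop.def hc, eventually_ge_atTop (1 : ℝ)] with x hx h1
  rw [Real.norm_of_nonneg (Real.log_nonneg h1)] at hx
  simpa [abs_of_nonneg (by linarith : (0 : ℝ) ≤ x)] using hx

lemma count_le (m X : ℕ) :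
    (Nat.primeCounting X : ℝ) ≤ m + (({h : ℕ | h ≤ X ∧ (m + h).Prime} : Set ℕ).ncard : ℝ) := by
  have h1 : ({h : ℕ | h ≤ X ∧ (m + h).Prime} : Set ℕ) =
      ((range (X + 1)).filter (fun h => (m + h).Prime) : Finset ℕ) := by
    ext h
    simp
  rw [h1, Set.ncard_coe_finset]
  have h2 : (range (X + 1)).filter Nat.Prime ⊆
      range m ∪ ((range (X + 1)).filter (fun h => (m + h).Prime)).image (fun h => m + h) := by
    intro p hp
    rw [mem_filter, mem_range] at hp
    rw [mem_union, mem_range, mem_image]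
    by_cases h : p < m
    · exact Or.inl h
    · right
      refine ⟨p - m, ?_, by omega⟩
      rw [mem_filter, mem_range]
      refine ⟨by omega, ?_⟩
      rw [show m + (p - m) = p by omega]
      exact hp.2
  have h3 : Nat.primeCounting X = ((range (X + 1)).filter Nat.Prime).card := by
    rw [Nat.primeCounting, Nat.primeCounting', Nat.count_eq_card_filter_range]
  have h4 := (card_le_card h2).trans (card_union_le _ _)
  have h5 := h4.trans (Nat.add_le_add_left card_image_le _)
  rw [card_range, ← h3] at h5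
  exact_mod_cast h5

/-- PR -/
theorem main : S_PR := by
  intro m
  have ev1 : ∀ᶠ X : ℕ in atTop, (4 : ℝ) ≤ Real.log X :=
    (Real.tendsto_log_atTop.comp tendsto_natCast_atTop_atTop).eventually_ge_atTop 4
  have ev2 : ∀ᶠ X : ℕ in atTop, Real.log ((X : ℝ) + 1) ≤ (1 / 20) * ((X : ℝ) + 1) :=
    (tendsto_atTop_add_const_right atTop (1 : ℝ) tendsto_natCast_atTop_atTop).eventually
      (log_le_mul (by norm_num))
  have ev3 : ∀ᶠ X : ℕ in atTop, Real.log X ≤ (1 / (4 * (m : ℝ) + 1)) * X :=
    tendsto_natCast_atTop_atTop.eventually (log_le_mul (by positivity))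
  obtain ⟨X0, hX0⟩ := eventually_atTop.1 ((ev1.and ev2).and (ev3.and (eventually_ge_atTop 1)))
  refine ⟨X0, fun X hX => ?_⟩
  obtain ⟨⟨e1, e2⟩, e3, e4⟩ := hX0 X hX
  have hX1 : (1 : ℝ) ≤ X := by exact_mod_cast e4
  have h1 := Chebyshev.pi_ge X
  have h2 := count_le m X
  have hL : 0 < Real.log X := by linarith
  have hlog2 : (0.69 : ℝ) ≤ Real.log 2 := by
    have := Real.log_two_gt_d9
    linarith
  have h3 : (X : ℝ) / (2 * Real.log X) ≤ (X * Real.log 2 - Real.log ((X : ℝ) + 1)) / Real.log X := by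
    rw [div_le_div_iff₀ (by positivity) hL]
    have h4 : (X : ℝ) ≤ 2 * (X * Real.log 2 - Real.log ((X : ℝ) + 1)) := by nlinarith
    nlinarith
  have h4 : (m : ℝ) ≤ X / (4 * Real.log X) := by
    rw [le_div_iff₀ (by positivity)]
    rw [one_div, ← div_eq_inv_mul, le_div_iff₀ (by positivity)] at e3
    nlinarith
  have h5 : (X : ℝ) / (Real.log X) ^ 2 ≤ X / (4 * Real.log X) := by
    apply div_le_div_of_nonneg_left (by linarith) (by positivity)
    nlinarith
  have h6 : (X : ℝ) / (2 * Real.log X) = X / (4 * Real.log X) + X / (4 * Real.log X) := by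
    field_simp
    ring
  linarith

end Pool.Agent.Helper64.FP.Pr
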