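import Pool.Agent.Helper64.FP.Stm2

/-!
# Project FP (helper64): `S_RES`
-/

set_option autoImplicit false

namespace Pool.Agent.Helper64.FP.Res

open Finset

theorem main : S_IND → S_FL → S_RES := by
  intro hI hF c l m hc h0 hr N
  rcases Nat.eq_zero_or_pos l with rfl | hl
  · exact ⟨N, le_rfl, fun i hi => absurd hi (Nat.not_lt_zero i)⟩
  obtain ⟨B, X0, hX0⟩ := hI c l m hc hr 0 hl
  -- a pattern `h > N`
  have ex : ∃ h : ℕ, N + 1 ≤ h ∧ Pat c l m 0 h := by
    by_contra hcon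
    push Not at hcon
    have hsub : ∀ X : ℕ, (({h : ℕ | h ≤ X ∧ Pat c l m 0 h} : Set ℕ).ncard : ℝ) ≤ N + 1 := by
      intro X
      have h1 : ({h : ℕ | h ≤ X ∧ Pat c l m 0 h} : Set ℕ) ⊆ ((Finset.range (N + 1) : Finset ℕ) : Set ℕ) := by
        intro h hh
        simp only [Finset.coe_range, Set.mem_Iio]
        by_contra hge
        exact hcon h (by omega) hh.2
      have h2 := Set.ncard_le_ncard h1 (Finset.finite_toSet _)
      rw [Set.ncard_coe_finset, Finset.card_range] at h2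
      exact_mod_cast h2
    have hlo : (fun x : ℝ => Real.log x ^ (B : ℕ)) =o[Filter.atTop] (fun x : ℝ => x) := by
      have := isLittleO_log_rpow_rpow_atTop (B : ℝ) (show (0 : ℝ) < 1 by norm_num)
      simpa using this
    have hev : ∀ᶠ X : ℕ in Filter.atTop, Real.log (X : ℝ) ^ B * ((N : ℝ) + 2) ≤ X := by
      have h3 := (hlo.bound (show (0 : ℝ) < 1 / ((N : ℝ) + 2) by positivity))
      have h4 := tendsto_natCast_atTop_atTop (R := ℝ) |>.eventually h3
      filter_upwards [h4, Filter.eventually_ge_atTop 3] with X hX hX3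
      have hX3' : (3 : ℝ) ≤ X := by exact_mod_cast hX3
      have hlogp : 0 ≤ Real.log (X : ℝ) := Real.log_nonneg (by linarith)
      rw [Real.norm_of_nonneg (pow_nonneg hlogp _), Real.norm_of_nonneg (by linarith : (0 : ℝ) ≤ X)] at hX
      have hp : (0 : ℝ) < (N : ℝ) + 2 := by positivity
      calc Real.log (X : ℝ) ^ B * ((N : ℝ) + 2) ≤ 1 / ((N : ℝ) + 2) * X * ((N : ℝ) + 2) :=
            mul_le_mul_of_nonneg_right hX hp.le
        _ = X := by field_simp
    obtain ⟨X, h5, h6, h7⟩ := (hev.and ((Filter.eventually_ge_atTop X0).and (Filter.eventually_ge_atTop 3))).exists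
    have h8 := (hX0 X h6).trans (hsub X)
    have h7' : (3 : ℝ) ≤ X := by exact_mod_cast h7
    have hlogp : 0 < Real.log (X : ℝ) := Real.log_pos (by linarith)
    rw [div_le_iff₀ (pow_pos hlogp _)] at h8
    have h9 : 0 < Real.log (X : ℝ) ^ B := pow_pos hlogp _
    nlinarith
  obtain ⟨h, hN, hP⟩ := ex
  obtain ⟨n, hn1, hn2, hn3⟩ := hF (c 0) (hc 0 hl) h0 h (by omega)
  refine ⟨n, by omega, fun i hi => ?_⟩
  have := hP ((n : ℝ) ^ c 0) hn1 hn2 i (Nat.zero_le _) hi
  rwa [← Real.rpow_mul (Nat.cast_nonneg n), mul_div_cancel₀ _ (hc 0 hl).ne'] at this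

end Pool.Agent.Helper64.FP.Res
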