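import Pool.Agent.Helper64.FP.Stm

/-!
# Project FP (helper64): `S_STEP` (by helper39)
-/

set_option autoImplicit false

namespace Pool.Agent.Helper64.FP.Step

open Finset Pool.Agent.helper616_RP

/-- the bad elements -/
theorem bad_card {X a L : ℕ} (hL : 1 ≤ L) (ha : a ≤ X) (Bd : Finset ℕ) (hB : Bd ⊆ Icc 1 X)
    (h : ∀ m ∈ Bd, ∑ s ∈ Icc 1 L, th (m + a + s) < (L : ℝ) / 2) :
    (Bd.card : ℝ) * ((L : ℝ) ^ 2 / 4) ≤
      ∑ u ∈ range (2 * X + 1), (∑ s ∈ Icc 1 L, (th (u + s) - 1)) ^ 2 := by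
  have h1 : (Bd.card : ℝ) * ((L : ℝ) ^ 2 / 4) = ∑ m ∈ Bd, (L : ℝ) ^ 2 / 4 := by
    rw [sum_const, nsmul_eq_mul]
  have h2 : ∑ m ∈ Bd, (L : ℝ) ^ 2 / 4 ≤ ∑ m ∈ Bd, (∑ s ∈ Icc 1 L, (th (m + a + s) - 1)) ^ 2 := by
    refine sum_le_sum fun m hm => ?_
    have h3 := h m hm
    rw [sum_sub_distrib]
    simp only [sum_const, Nat.card_Icc, Nat.add_sub_cancel, nsmul_eq_mul, mul_one]
    have h4 : (L : ℝ) / 2 ≤ L - ∑ s ∈ Icc 1 L, th (m + a + s) := by linarith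
    have h5 : (0 : ℝ) ≤ (L : ℝ) / 2 := by positivity
    nlinarith
  have h3 : ∑ m ∈ Bd, (∑ s ∈ Icc 1 L, (th (m + a + s) - 1)) ^ 2 =
      ∑ u ∈ Bd.image (fun m => m + a), (∑ s ∈ Icc 1 L, (th (u + s) - 1)) ^ 2 := by
    rw [sum_image]
    intro x _ y _ hxy
    exact Nat.add_right_cancel hxy
  rw [h1]
  refine h2.trans (h3.le.trans ?_)
  refine sum_le_sum_of_subset_of_nonneg ?_ fun _ _ _ => sq_nonneg _
  intro u hu
  rw [mem_image] at hu
  obtain ⟨m, hm, rfl⟩ := hu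
  have := mem_Icc.1 (hB hm)
  rw [mem_range]
  omega

/-- the good elements -/
theorem good_one {X a L m : ℕ} (hX : 3 ≤ X) (hm : m ≤ X) (ha : a ≤ X) (hL : L ≤ X)
    (h : (L : ℝ) / 2 ≤ ∑ s ∈ Icc 1 L, th (m + a + s)) :
    (L : ℝ) / 2 ≤ 2 * Real.log X * (((Icc 1 L).filter (fun s => (m + (a + s)).Prime)).card : ℝ) := by
  refine h.trans ?_
  have hX' : (3 : ℝ) ≤ X := by exact_mod_cast hX
  have h1 : ∀ s ∈ Icc 1 L, th (m + a + s) ≤ if (m + (a + s)).Prime then 2 * Real.log X else 0 := by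
    intro s hs
    have hs' := mem_Icc.1 hs
    unfold th
    rw [add_assoc]
    split_ifs with hp
    · have h2 : ((m + (a + s) : ℕ) : ℝ) ≤ (X : ℝ) ^ 2 := by
        have h3 : m + (a + s) ≤ 3 * X := by omega
        have h4 : ((m + (a + s) : ℕ) : ℝ) ≤ 3 * X := by exact_mod_cast h3
        nlinarith
      have h3 : (0 : ℝ) < ((m + (a + s) : ℕ) : ℝ) := by exact_mod_cast hp.pos
      have h4 := Real.log_le_log h3 h2
      rw [Real.log_pow] at h4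
      exact_mod_cast h4
    · exact le_rfl
  refine (sum_le_sum h1).trans (le_of_eq ?_)
  rw [← sum_filter, sum_const, nsmul_eq_mul, mul_comm]

theorem main : S_STEP := by
  intro θ hθ B
  obtain ⟨X₀, hX₀⟩ := t_VAR ((θ + 1 / 3) / 2) (by linarith) (B + 3)
  have ev1 : ∀ᶠ X : ℕ in Filter.atTop, (3 : ℝ) ^ ((θ + 1 / 3) / 2) ≤ (X : ℝ) ^ ((θ - 1 / 3) / 2) :=
    ((tendsto_rpow_atTop (show 0 < (θ - 1 / 3) / 2 by linarith)).comp
      tendsto_natCast_atTop_atTop).eventually_ge_atTop _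
  have ev2 : ∀ᶠ X : ℕ in Filter.atTop, (12 : ℝ) ≤ Real.log X :=
    (Real.tendsto_log_atTop.comp tendsto_natCast_atTop_atTop).eventually_ge_atTop _
  have ev3 : ∀ᶠ X : ℕ in Filter.atTop, max X₀ 3 ≤ X := Filter.eventually_ge_atTop _
  obtain ⟨X0, hX0⟩ := Filter.eventually_atTop.1 (ev1.and (ev2.and ev3))
  refine ⟨X0, fun X hX M hM hMc a L ha hL1 hL2 => ?_⟩
  obtain ⟨e1, e2, e3⟩ := hX0 X hX
  have h3 : 3 ≤ X := le_trans (le_max_right _ _) e3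
  have hX0' : X₀ ≤ X := le_trans (le_max_left _ _) e3
  have h3' : (3 : ℝ) ≤ X := by exact_mod_cast h3
  have hXp : (0 : ℝ) < X := by linarith
  have hLr : (1 : ℝ) ≤ L := (Real.one_le_rpow (by linarith) (by linarith)).trans hL1
  have hL0 : 1 ≤ L := by exact_mod_cast hLr
  have hYle : (((2 * X + 1 : ℕ)) : ℝ) ≤ 3 * X := by push_cast; linarith
  have hYX : (X : ℝ) ≤ ((2 * X + 1 : ℕ) : ℝ) := by push_cast; linarith
  have hlogY : Real.log X ≤ Real.log ((2 * X + 1 : ℕ) : ℝ) := Real.log_le_log hXp hYX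
  have hW1 : (((2 * X + 1 : ℕ)) : ℝ) ^ ((θ + 1 / 3) / 2) ≤ L := by
    refine le_trans (Real.rpow_le_rpow (by positivity) hYle (by linarith)) (le_trans ?_ hL1)
    rw [Real.mul_rpow (by norm_num) hXp.le]
    calc (3 : ℝ) ^ ((θ + 1 / 3) / 2) * (X : ℝ) ^ ((θ + 1 / 3) / 2)
        ≤ (X : ℝ) ^ ((θ - 1 / 3) / 2) * (X : ℝ) ^ ((θ + 1 / 3) / 2) :=
          mul_le_mul_of_nonneg_right e1 (by positivity)
      _ = (X : ℝ) ^ θ := by rw [← Real.rpow_add hXp]; congr 1; ring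
  have hsum := hX₀ (2 * X + 1) (by omega) L hW1 (by omega)
  set ℓ : ℝ := Real.log X with hℓ
  have hℓ0 : 0 < ℓ := by linarith
  by_contra hcon
  push Not at hcon
  -- bad
  set Bd := M.filter (fun m => ∑ s ∈ Icc 1 L, th (m + a + s) < (L : ℝ) / 2) with hBd
  set Gd := M.filter (fun m => ¬ ∑ s ∈ Icc 1 L, th (m + a + s) < (L : ℝ) / 2) with hGd
  have hcard : (Bd.card : ℝ) + Gd.card = M.card := by
    have := Finset.card_filter_add_card_filter_not (s := M)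
      (fun m => ∑ s ∈ Icc 1 L, th (m + a + s) < (L : ℝ) / 2)
    exact_mod_cast this
  have hb := bad_card hL0 ha Bd ((filter_subset _ _).trans hM) fun m hm => (mem_filter.1 hm).2
  have hb2 : (Bd.card : ℝ) * ℓ ^ (B + 3) ≤ 12 * X := by
    have h4 := hb.trans hsum
    have h5 : (0 : ℝ) < Real.log ((2 * X + 1 : ℕ) : ℝ) := lt_of_lt_of_le hℓ0 hlogY
    rw [le_div_iff₀ (pow_pos h5 _)] at h4
    have h6 : ℓ ^ (B + 3) ≤ Real.log ((2 * X + 1 : ℕ) : ℝ) ^ (B + 3) :=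
      pow_le_pow_left₀ hℓ0.le hlogY _
    have h7 : (Bd.card : ℝ) * ((L : ℝ) ^ 2 / 4) * ℓ ^ (B + 3) ≤ 3 * X * (L : ℝ) ^ 2 :=
      (mul_le_mul_of_nonneg_left h6 (by positivity)).trans
        (h4.trans (mul_le_mul_of_nonneg_right hYle (by positivity)))
    have h8 : (0 : ℝ) < (L : ℝ) ^ 2 := by positivity
    have h9 : (Bd.card : ℝ) * ℓ ^ (B + 3) * (L : ℝ) ^ 2 ≤ 12 * X * (L : ℝ) ^ 2 := by linarith
    exact le_of_mul_le_mul_right h9 h8
  -- good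
  have hg : (Gd.card : ℝ) * ((L : ℝ) / 2) ≤ 2 * ℓ * (L * (X / ℓ ^ (B + 2))) := by
    have h4 : (Gd.card : ℝ) * ((L : ℝ) / 2) ≤
        ∑ m ∈ Gd, 2 * ℓ * (((Icc 1 L).filter (fun s => (m + (a + s)).Prime)).card : ℝ) := by
      rw [← nsmul_eq_mul, ← sum_const]
      refine sum_le_sum fun m hm => ?_
      obtain ⟨hm1, hm2⟩ := mem_filter.1 hm
      exact good_one h3 (mem_Icc.1 (hM hm1)).2 ha hL2 (not_lt.1 hm2)
    have h5 : ∑ m ∈ Gd, 2 * ℓ * (((Icc 1 L).filter (fun s => (m + (a + s)).Prime)).card : ℝ) ≤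
        2 * ℓ * ∑ m ∈ M, (((Icc 1 L).filter (fun s => (m + (a + s)).Prime)).card : ℝ) := by
      rw [← mul_sum]
      refine mul_le_mul_of_nonneg_left ?_ (by positivity)
      exact sum_le_sum_of_subset_of_nonneg (filter_subset _ _) fun _ _ _ => by positivity
    have h6 : ∑ m ∈ M, (((Icc 1 L).filter (fun s => (m + (a + s)).Prime)).card : ℝ) =
        ∑ s ∈ Icc 1 L, ((M.filter (fun m => (m + (a + s)).Prime)).card : ℝ) := by
      simp only [card_filter, Nat.cast_sum, Nat.cast_ite, Nat.cast_one, Nat.cast_zero]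
      exact sum_comm
    have h7 : ∑ s ∈ Icc 1 L, ((M.filter (fun m => (m + (a + s)).Prime)).card : ℝ) ≤
        L * (X / ℓ ^ (B + 2)) := by
      have h8 : ∑ s ∈ Icc 1 L, ((M.filter (fun m => (m + (a + s)).Prime)).card : ℝ) ≤
          ∑ s ∈ Icc 1 L, (X / ℓ ^ (B + 2)) := by
        refine sum_le_sum fun s hs => ?_
        have hs' := mem_Icc.1 hs
        exact (hcon (a + s) (mem_Ioc.2 ⟨by omega, by omega⟩)).le
      refine h8.trans (le_of_eq ?_)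
      rw [sum_const, Nat.card_Icc, Nat.add_sub_cancel, nsmul_eq_mul]
    refine h4.trans (h5.trans ?_)
    rw [h6]
    exact mul_le_mul_of_nonneg_left h7 (by positivity)
  have hg2 : (Gd.card : ℝ) * ℓ ^ (B + 3) ≤ 4 * X * ℓ ^ 2 := by
    have hLp : (0 : ℝ) < L := by linarith
    have h4 : (Gd.card : ℝ) ≤ 4 * ℓ * (X / ℓ ^ (B + 2)) := by
      have h5 : (Gd.card : ℝ) * L ≤ 4 * ℓ * (X / ℓ ^ (B + 2)) * L := by linarith
      exact le_of_mul_le_mul_right h5 hLp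
    calc (Gd.card : ℝ) * ℓ ^ (B + 3) ≤ 4 * ℓ * (X / ℓ ^ (B + 2)) * ℓ ^ (B + 3) :=
          mul_le_mul_of_nonneg_right h4 (by positivity)
      _ = 4 * X * ℓ ^ 2 := by
          rw [pow_succ ℓ (B + 2)]
          field_simp
  have hm2 : (X : ℝ) * ℓ ^ 3 ≤ M.card * ℓ ^ (B + 3) := by
    have h4 : (X : ℝ) / ℓ ^ B * ℓ ^ (B + 3) ≤ M.card * ℓ ^ (B + 3) :=
      mul_le_mul_of_nonneg_right hMc (by positivity)
    refine le_trans (le_of_eq ?_) h4
    rw [pow_add]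
    field_simp
  have hfin : (X : ℝ) * ℓ ^ 3 ≤ 12 * X + 4 * X * ℓ ^ 2 := by
    refine hm2.trans ?_
    rw [← hcard, add_mul]
    exact add_le_add hb2 hg2
  have h4 : ℓ ^ 3 ≤ 12 + 4 * ℓ ^ 2 := by
    have h5 : ℓ ^ 3 * X ≤ (12 + 4 * ℓ ^ 2) * X := by linarith
    exact le_of_mul_le_mul_right h5 hXp
  nlinarith [sq_nonneg ℓ, mul_le_mul_of_nonneg_right e2 (sq_nonneg ℓ)]

end Pool.Agent.Helper64.FP.Step
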