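import Pool.Agent.Helper64.FP.Stm

set_option autoImplicit false

/-!
# The step along a curve (module STEP2, helper9)
-/

namespace Pool.Agent.Helper64.FP.Step2

open Finset Filter

/-- STEP2 -/
theorem main : S_STEP → S_LEN → S_STEP2 := by
  intro hS hL ρ κ₀ κ hρ hκ₀ hκ hρκ h3 B
  set θ : ℝ := (1 / 3 + κ₀ * (ρ - 1)) / 2 with hθ
  have hθ1 : 1 / 3 < θ := by rw [hθ]; linarith
  have hθ2 : 0 < κ₀ * (ρ - 1) - θ := by rw [hθ]; linarith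
  obtain ⟨X1, hX1⟩ := hS θ hθ1 B
  have hκ0 : 0 < κ := hκ₀.trans hκ
  have ev1 : ∀ᶠ X : ℕ in atTop, (4 : ℝ) ≤ (X : ℝ) ^ (κ₀ * (ρ - 1) - θ) :=
    ((tendsto_rpow_atTop hθ2).comp tendsto_natCast_atTop_atTop).eventually_ge_atTop 4
  have ev2 : ∀ᶠ X : ℕ in atTop, (4 : ℝ) ≤ (X : ℝ) ^ κ :=
    ((tendsto_rpow_atTop hκ0).comp tendsto_natCast_atTop_atTop).eventually_ge_atTop 4
  obtain ⟨X2, hX2⟩ := eventually_atTop.1 (ev1.and ev2)
  refine ⟨max (max X1 X2) 1, fun X hX M hM hMc g hg1 hg2 => ?_⟩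
  have hXX1 : X1 ≤ X := le_trans (le_trans (le_max_left _ _) (le_max_left _ _)) hX
  have hXX2 : X2 ≤ X := le_trans (le_trans (le_max_right _ _) (le_max_left _ _)) hX
  have hXone : 1 ≤ X := le_trans (le_max_right _ _) hX
  obtain ⟨e1, e2⟩ := hX2 X hXX2
  have hXr : (1 : ℝ) ≤ X := by exact_mod_cast hXone
  have hX0 : (0 : ℝ) < X := by linarith
  have hgpos : (0 : ℝ) < g := lt_of_lt_of_le (Real.rpow_pos_of_pos hX0 _) hg1
  have hg : 1 ≤ g := by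
    have : 0 < g := by exact_mod_cast hgpos
    omega
  have hXθ : (1 : ℝ) ≤ (X : ℝ) ^ θ := Real.one_le_rpow hXr (by linarith)
  have k1 : (X : ℝ) ^ θ + 3 ≤ (g : ℝ) ^ (ρ - 1) := by
    have k2 : ((X : ℝ) ^ κ₀) ^ (ρ - 1) ≤ (g : ℝ) ^ (ρ - 1) :=
      Real.rpow_le_rpow (by positivity) hg1 (by linarith)
    have k3 : ((X : ℝ) ^ κ₀) ^ (ρ - 1) = (X : ℝ) ^ θ * (X : ℝ) ^ (κ₀ * (ρ - 1) - θ) := by
      rw [← Real.rpow_mul hX0.le, ← Real.rpow_add hX0]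
      congr 1
      ring
    rw [k3] at k2
    nlinarith
  obtain ⟨a, L, l1, l2, l3, l4⟩ := hL ρ hρ g hg (by linarith)
  have k4 : ((g : ℝ) + 1) ^ ρ ≤ X := by
    have k5 : (g : ℝ) + 1 ≤ (X : ℝ) ^ κ := by linarith
    calc ((g : ℝ) + 1) ^ ρ ≤ ((X : ℝ) ^ κ) ^ ρ := Real.rpow_le_rpow (by positivity) k5 (by linarith)
      _ = (X : ℝ) ^ (κ * ρ) := by rw [← Real.rpow_mul hX0.le]
      _ ≤ (X : ℝ) ^ (1 : ℝ) := Real.rpow_le_rpow_of_exponent_le hXr (by linarith)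
      _ = X := Real.rpow_one _
  have haX : a ≤ X := by
    have : (a : ℝ) ≤ X := by
      have : (0 : ℝ) ≤ L := Nat.cast_nonneg L
      linarith
    exact_mod_cast this
  have hLX : L ≤ X := by
    have : (L : ℝ) ≤ X := by
      have : (0 : ℝ) ≤ a := Nat.cast_nonneg a
      linarith
    exact_mod_cast this
  obtain ⟨h, hh, hc⟩ := hX1 X hXX1 M hM hMc a L haX (by linarith) hLX
  rw [mem_Ioc] at hh
  refine ⟨h, ?_, ?_, hc⟩
  · have : (a : ℝ) ≤ h := by exact_mod_cast hh.1.le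
    linarith
  · have : (h : ℝ) ≤ a + L := by exact_mod_cast hh.2
    linarith

end Pool.Agent.Helper64.FP.Step2
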