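import Pool.Agent.Helper64.FP.Stm2

/-!
# Project FP (helper64): `S_STG` (by helper36)
-/

set_option autoImplicit false

namespace Pool.Agent.Helper64.FP.Stg

open Finset Pool.Agent.helper616_RP

/-- the integers of a window of a bad element -/
theorem bad_one {X a W m i : ℕ} {ℓ : ℝ} (hℓ : ℓ = Real.log X) (hℓ0 : 0 < ℓ) (hX : 3 ≤ X)
    (hm : m ≤ X) (ha : a + 2 * W ≤ X) (hi : i < W)
    (h : (((Icc 1 (2 * W)).filter (fun s => (m + (a + s)).Prime)).card : ℝ) < W / (4 * ℓ)) :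
    (W : ℝ) ^ 2 / 4 ≤ (∑ s ∈ Icc 1 W, (th (m + a + i + s) - 1)) ^ 2 := by
  have hX' : (3 : ℝ) ≤ X := by exact_mod_cast hX
  have h1 : ∀ s ∈ Icc 1 W, th (m + a + i + s) ≤
      if (m + (a + (i + s))).Prime then 2 * ℓ else 0 := by
    intro s hs
    have hs' := mem_Icc.1 hs
    unfold th
    rw [show m + a + i + s = m + (a + (i + s)) by ring]
    split_ifs with hp
    · have h2 : ((m + (a + (i + s)) : ℕ) : ℝ) ≤ (X : ℝ) ^ 2 := by
        have h3 : m + (a + (i + s)) ≤ 3 * X := by omega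
        have h4 : ((m + (a + (i + s)) : ℕ) : ℝ) ≤ 3 * X := by exact_mod_cast h3
        nlinarith
      have h3 : (0 : ℝ) < ((m + (a + (i + s)) : ℕ) : ℝ) := by exact_mod_cast hp.pos
      have h4 := Real.log_le_log h3 h2
      rw [Real.log_pow] at h4
      rw [hℓ]
      exact_mod_cast h4
    · exact le_rfl
  have h2 : ∑ s ∈ Icc 1 W, th (m + a + i + s) ≤
      (((Icc 1 W).filter (fun s => (m + (a + (i + s))).Prime)).card : ℝ) * (2 * ℓ) := by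
    refine (sum_le_sum h1).trans (le_of_eq ?_)
    rw [← sum_filter, sum_const, nsmul_eq_mul]
  have h3 : ((Icc 1 W).filter (fun s => (m + (a + (i + s))).Prime)).card ≤
      ((Icc 1 (2 * W)).filter (fun s => (m + (a + s)).Prime)).card := by
    refine card_le_card_of_injOn (fun s => i + s) ?_ ?_
    · intro s hs
      have hs1 := mem_filter.1 (mem_coe.1 hs)
      have hs2 := mem_Icc.1 hs1.1
      refine mem_coe.2 (mem_filter.2 ⟨mem_Icc.2 ⟨?_, ?_⟩, hs1.2⟩)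
      · show 1 ≤ i + s
        omega
      · show i + s ≤ 2 * W
        omega
    · intro x _ y _ hxy
      exact Nat.add_left_cancel hxy
  have h4 : ∑ s ∈ Icc 1 W, th (m + a + i + s) ≤ (W : ℝ) / 2 := by
    refine h2.trans ?_
    have h5 : (((Icc 1 W).filter (fun s => (m + (a + (i + s))).Prime)).card : ℝ) ≤
        W / (4 * ℓ) := le_trans (by exact_mod_cast h3) h.le
    calc (((Icc 1 W).filter (fun s => (m + (a + (i + s))).Prime)).card : ℝ) * (2 * ℓ)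
        ≤ W / (4 * ℓ) * (2 * ℓ) := mul_le_mul_of_nonneg_right h5 (by positivity)
      _ = (W : ℝ) / 2 := by field_simp; ring
  rw [sum_sub_distrib]
  simp only [sum_const, Nat.card_Icc, Nat.add_sub_cancel, nsmul_eq_mul, mul_one]
  have h5 : (W : ℝ) / 2 ≤ W - ∑ s ∈ Icc 1 W, th (m + a + i + s) := by linarith
  have h6 : (0 : ℝ) ≤ (W : ℝ) / 2 := by positivity
  nlinarith

/-- the counting, with given windows -/
theorem counting {X W m : ℕ} {ℓ Y₀ : ℝ} (hℓ : ℓ = Real.log X) (hℓ0 : 0 < ℓ) (hX : 3 ≤ X)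
    (hm : m ≤ X) (hW : 1 ≤ W) (𝒢 : Finset ℕ) (a : ℕ → ℕ) (ρ : ℝ) (hρ : 0 < ρ)
    (h1 : ∀ g ∈ 𝒢, (g : ℝ) ^ ρ ≤ a g) (h2 : ∀ g ∈ 𝒢, (a g : ℝ) + 2 * W + 1 ≤ ((g : ℝ) + 1) ^ ρ)
    (h3 : ∀ g ∈ 𝒢, ((g : ℝ) + 1) ^ ρ ≤ X) (hc : 2 * Y₀ ≤ 𝒢.card)
    (hV : ∑ u ∈ range (2 * X + 1), (∑ s ∈ Icc 1 W, (th (u + s) - 1)) ^ 2 ≤
      Y₀ * W * ((W : ℝ) ^ 2 / 4)) :
    Y₀ * (W / (4 * ℓ)) ≤
    (({h : ℕ | h ≤ X ∧ (m + h).Prime ∧ ∃ g ∈ 𝒢, (g : ℝ) ^ ρ ≤ h ∧
      (h : ℝ) + 1 ≤ ((g : ℝ) + 1) ^ ρ} : Set ℕ).ncard : ℝ) := by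
  have hWr : (1 : ℝ) ≤ W := by exact_mod_cast hW
  have hdis : ∀ g ∈ 𝒢, ∀ g' ∈ 𝒢, g < g' → a g + 2 * W + 1 ≤ a g' := by
    intro g hg g' hg' hlt
    have e1 : ((g : ℝ) + 1) ^ ρ ≤ (g' : ℝ) ^ ρ := by
      apply Real.rpow_le_rpow (by positivity) _ hρ.le
      exact_mod_cast hlt
    have e2 := (h2 g hg).trans (e1.trans (h1 g' hg'))
    exact_mod_cast e2
  have haX : ∀ g ∈ 𝒢, a g + 2 * W + 1 ≤ X := by
    intro g hg
    have := (h2 g hg).trans (h3 g hg)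
    exact_mod_cast this
  set w : ℕ → Finset ℕ := fun g => (Icc 1 (2 * W)).filter (fun s => (m + (a g + s)).Prime) with hw
  set Bd := 𝒢.filter (fun g => ((w g).card : ℝ) < W / (4 * ℓ)) with hBd
  set Gd := 𝒢.filter (fun g => ¬ ((w g).card : ℝ) < W / (4 * ℓ)) with hGd
  have hcard : (Bd.card : ℝ) + Gd.card = 𝒢.card := by
    have := Finset.card_filter_add_card_filter_not (s := 𝒢)
      (fun g => ((w g).card : ℝ) < W / (4 * ℓ))
    exact_mod_cast this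
  -- bad
  have hb : (Bd.card : ℝ) * W * ((W : ℝ) ^ 2 / 4) ≤
      ∑ u ∈ range (2 * X + 1), (∑ s ∈ Icc 1 W, (th (u + s) - 1)) ^ 2 := by
    have e1 : (Bd.card : ℝ) * W * ((W : ℝ) ^ 2 / 4) =
        ∑ p ∈ Bd ×ˢ range W, (W : ℝ) ^ 2 / 4 := by
      rw [sum_const, nsmul_eq_mul, card_product, card_range]
      push_cast
      ring
    have e2 : ∑ p ∈ Bd ×ˢ range W, (W : ℝ) ^ 2 / 4 ≤
        ∑ p ∈ Bd ×ˢ range W, (∑ s ∈ Icc 1 W, (th (m + a p.1 + p.2 + s) - 1)) ^ 2 := by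
      refine sum_le_sum fun p hp => ?_
      obtain ⟨hp1, hp2⟩ := mem_product.1 hp
      obtain ⟨hp3, hp4⟩ := mem_filter.1 hp1
      have := haX p.1 hp3
      exact bad_one hℓ hℓ0 hX hm (by omega) (mem_range.1 hp2) hp4
    have e3 : ∑ p ∈ Bd ×ˢ range W, (∑ s ∈ Icc 1 W, (th (m + a p.1 + p.2 + s) - 1)) ^ 2 =
        ∑ u ∈ (Bd ×ˢ range W).image (fun p => m + a p.1 + p.2),
          (∑ s ∈ Icc 1 W, (th (u + s) - 1)) ^ 2 := by
      rw [sum_image]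
      rintro ⟨g, i⟩ hp ⟨g', i'⟩ hp' he
      rw [mem_coe, mem_product] at hp hp'
      simp only [mem_range] at hp hp' he
      have hg := (mem_filter.1 hp.1).1
      have hg' := (mem_filter.1 hp'.1).1
      have e4 : g = g' := by
        by_contra hne
        rcases Nat.lt_or_gt_of_ne hne with hlt | hlt
        · have := hdis g hg g' hg' hlt
          omega
        · have := hdis g' hg' g hg hlt
          omega
      subst e4
      have e5 : i = i' := by omega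
      rw [e5]
    rw [e1]
    refine e2.trans (e3.le.trans ?_)
    refine sum_le_sum_of_subset_of_nonneg ?_ fun _ _ _ => sq_nonneg _
    intro u hu
    rw [mem_image] at hu
    obtain ⟨p, hp, rfl⟩ := hu
    obtain ⟨hp1, hp2⟩ := mem_product.1 hp
    have := haX p.1 (mem_filter.1 hp1).1
    have := mem_range.1 hp2
    rw [mem_range]
    omega
  have hb2 : (Bd.card : ℝ) ≤ Y₀ := by
    have e1 := hb.trans hV
    have e2 : (0 : ℝ) < W * ((W : ℝ) ^ 2 / 4) := by positivity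
    have e3 : (Bd.card : ℝ) * (W * ((W : ℝ) ^ 2 / 4)) ≤ Y₀ * (W * ((W : ℝ) ^ 2 / 4)) := by
      linarith
    exact le_of_mul_le_mul_right e3 e2
  have hg2 : Y₀ ≤ (Gd.card : ℝ) := by linarith
  -- good
  set S := Gd.biUnion (fun g => (w g).image (fun s => a g + s)) with hS
  have hScard : (Gd.card : ℝ) * (W / (4 * ℓ)) ≤ (S.card : ℝ) := by
    rw [hS, card_biUnion]
    · push_cast
      rw [← nsmul_eq_mul, ← sum_const]
      refine sum_le_sum fun g hg => ?_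
      rw [card_image_of_injective _ (fun x y hxy => Nat.add_left_cancel hxy)]
      exact not_lt.1 (mem_filter.1 hg).2
    · intro g hg g' hg' hne
      have hg1 := (mem_filter.1 hg).1
      have hg1' := (mem_filter.1 hg').1
      rw [Function.onFun, Finset.disjoint_left]
      intro h hh hh'
      rw [mem_image] at hh hh'
      obtain ⟨s, hs, rfl⟩ := hh
      obtain ⟨s', hs', he⟩ := hh'
      have e1 := mem_Icc.1 (mem_filter.1 hs).1
      have e2 := mem_Icc.1 (mem_filter.1 hs').1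
      rcases Nat.lt_or_gt_of_ne hne with hlt | hlt
      · have := hdis g hg1 g' hg1' hlt
        omega
      · have := hdis g' hg1' g hg1 hlt
        omega
  have hsub : (S : Set ℕ) ⊆ {h : ℕ | h ≤ X ∧ (m + h).Prime ∧ ∃ g ∈ 𝒢, (g : ℝ) ^ ρ ≤ h ∧
      (h : ℝ) + 1 ≤ ((g : ℝ) + 1) ^ ρ} := by
    intro h hh
    rw [mem_coe, hS, mem_biUnion] at hh
    obtain ⟨g, hg, hh⟩ := hh
    rw [mem_image] at hh
    obtain ⟨s, hs, rfl⟩ := hh
    have hg1 := (mem_filter.1 hg).1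
    have e1 := mem_filter.1 hs
    have e2 := mem_Icc.1 e1.1
    have e3 := haX g hg1
    refine ⟨by omega, e1.2, g, hg1, ?_, ?_⟩
    · refine (h1 g hg1).trans ?_
      exact_mod_cast Nat.le_add_right _ _
    · refine le_trans ?_ (h2 g hg1)
      have : a g + s + 1 ≤ a g + 2 * W + 1 := by omega
      exact_mod_cast this
  have hfin : ({h : ℕ | h ≤ X ∧ (m + h).Prime ∧ ∃ g ∈ 𝒢, (g : ℝ) ^ ρ ≤ h ∧
      (h : ℝ) + 1 ≤ ((g : ℝ) + 1) ^ ρ} : Set ℕ).Finite :=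
    (Set.finite_Iic X).subset fun h hh => hh.1
  have hnc := Set.ncard_le_ncard hsub hfin
  rw [Set.ncard_coe_finset] at hnc
  have e1 : Y₀ * (W / (4 * ℓ)) ≤ (Gd.card : ℝ) * (W / (4 * ℓ)) :=
    mul_le_mul_of_nonneg_right hg2 (by positivity)
  exact e1.trans (hScard.trans (by exact_mod_cast hnc))

theorem main : S_LEN → S_STG := by
  intro hLEN ρ hρ m B
  have hρ0 : 0 < ρ := by linarith
  have hρ1 : 1 < ρ := by linarith
  set n₀ : ℕ := ⌈ρ⌉₊ with hn₀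
  set K : ℕ := (B + 1) * n₀ with hK
  set P : ℝ := 1 - 1 / ρ with hP
  have hP1 : 1 / 3 < P := by
    have : 1 / ρ < 2 / 3 := by
      rw [div_lt_div_iff₀ hρ0 (by norm_num)]
      linarith
    rw [hP]; linarith
  have hP2 : P ≤ 1 := by
    have : 0 < 1 / ρ := by positivity
    rw [hP]; linarith
  set θ : ℝ := (1 / 3 + P) / 2 with hθ
  have hθ1 : 1 / 3 < θ := by rw [hθ]; linarith
  have hθ2 : θ ≤ 1 := by rw [hθ]; linarith
  set δ : ℝ := P - θ with hδ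
  have hδ0 : 0 < δ := by rw [hδ, hθ]; linarith
  obtain ⟨X₀, hX₀⟩ := t_VAR θ hθ1 (K + 1)
  have ev1 : ∀ᶠ X : ℕ in Filter.atTop, (Real.log X) ^ (K + 1) ≤ (X : ℝ) ^ δ := by
    have h1 := (isLittleO_log_rpow_rpow_atTop ((K + 1 : ℕ) : ℝ) hδ0).bound (one_pos)
    have h2 := tendsto_natCast_atTop_atTop (R := ℝ) |>.eventually h1
    filter_upwards [h2, Filter.eventually_ge_atTop 3] with X hX h3
    have h3' : (3 : ℝ) ≤ X := by exact_mod_cast h3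
    have h4 : 0 ≤ Real.log X := Real.log_nonneg (by linarith)
    rw [one_mul, Real.rpow_natCast, Real.norm_of_nonneg (by positivity),
      Real.norm_of_nonneg (by positivity)] at hX
    exact hX
  have ev2 : ∀ᶠ X : ℕ in Filter.atTop, (1000 : ℝ) ≤ Real.log X :=
    (Real.tendsto_log_atTop.comp tendsto_natCast_atTop_atTop).eventually_ge_atTop _
  have ev3 : ∀ᶠ X : ℕ in Filter.atTop, max (max X₀ 3) m ≤ X := Filter.eventually_ge_atTop _
  obtain ⟨X0, hX0⟩ := Filter.eventually_atTop.1 (ev1.and (ev2.and ev3))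
  refine ⟨K + 2, X0, fun X hX 𝒢 h𝒢 hcard => ?_⟩
  obtain ⟨e1, e2, e3⟩ := hX0 X hX
  have h3 : 3 ≤ X := le_trans (le_trans (le_max_right _ _) (le_max_left _ _)) e3
  have hX0' : X₀ ≤ X := le_trans (le_trans (le_max_left _ _) (le_max_left _ _)) e3
  have hmX : m ≤ X := le_trans (le_max_right _ _) e3
  have h3' : (3 : ℝ) ≤ X := by exact_mod_cast h3
  have hXp : (0 : ℝ) < X := by linarith
  set ℓ : ℝ := Real.log X with hℓ
  have hℓ0 : 0 < ℓ := by linarith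
  have hℓ1 : 1 ≤ ℓ := by linarith
  set Y : ℝ := (X : ℝ) ^ (1 / ρ) with hY
  have hY0 : 0 < Y := by positivity
  have hYρ : Y ^ ρ = X := by
    rw [hY, ← Real.rpow_mul hXp.le, one_div, inv_mul_cancel₀ hρ0.ne', Real.rpow_one]
  have hYP : Y ^ (ρ - 1) = (X : ℝ) ^ P := by
    rw [hY, ← Real.rpow_mul hXp.le, hP]
    congr 1
    field_simp
  set q : ℝ := 4 * ℓ ^ B with hq
  have hℓB : 1 ≤ ℓ ^ B := one_le_pow₀ hℓ1
  have hq1 : 1 ≤ q := by rw [hq]; linarith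
  have hq0 : 0 < q := by linarith
  have hqK : q ^ ρ ≤ ℓ ^ K := by
    have h4 : q ≤ ℓ ^ (B + 1) := by
      rw [hq, pow_succ, mul_comm]
      exact mul_le_mul_of_nonneg_left (by linarith) (by positivity)
    calc q ^ ρ ≤ q ^ (n₀ : ℝ) := Real.rpow_le_rpow_of_exponent_le hq1 (Nat.le_ceil ρ)
      _ = q ^ n₀ := Real.rpow_natCast _ _
      _ ≤ (ℓ ^ (B + 1)) ^ n₀ := pow_le_pow_left₀ hq0.le h4 _
      _ = ℓ ^ K := by rw [hK, pow_mul]
  have hqK' : q ^ (ρ - 1) ≤ ℓ ^ K :=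
    (Real.rpow_le_rpow_of_exponent_le hq1 (by linarith)).trans hqK
  set Y₀ : ℝ := Y / q with hY₀
  have hY₀0 : 0 < Y₀ := by positivity
  set Z : ℝ := Y₀ ^ (ρ - 1) with hZ
  have hZ0 : 0 < Z := by positivity
  have hZq : Z * q ^ (ρ - 1) = (X : ℝ) ^ P := by
    rw [hZ, hY₀, Real.div_rpow hY0.le hq0.le, div_mul_cancel₀ _ (by positivity), hYP]
  have hZK : (X : ℝ) ^ P ≤ Z * ℓ ^ K := by
    rw [← hZq]
    exact mul_le_mul_of_nonneg_left hqK' hZ0.le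
  have hZθ : ℓ * (X : ℝ) ^ θ ≤ Z := by
    have h4 : (X : ℝ) ^ P = (X : ℝ) ^ δ * (X : ℝ) ^ θ := by
      rw [← Real.rpow_add hXp]; congr 1; rw [hδ]; ring
    have h5 : ℓ ^ (K + 1) * (X : ℝ) ^ θ ≤ Z * ℓ ^ K := by
      refine le_trans ?_ hZK
      rw [h4]
      exact mul_le_mul_of_nonneg_right e1 (by positivity)
    have h6 : ℓ * (X : ℝ) ^ θ * ℓ ^ K ≤ Z * ℓ ^ K := by
      refine le_trans (le_of_eq ?_) h5
      ring
    exact le_of_mul_le_mul_right h6 (by positivity)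
  have hXθ : 1 ≤ (X : ℝ) ^ θ := Real.one_le_rpow (by linarith) (by linarith)
  have hZ1 : 1000 * (X : ℝ) ^ θ ≤ Z :=
    (mul_le_mul_of_nonneg_right e2 (by positivity)).trans hZθ
  have hZ2 : 1000 ≤ Z := by linarith
  have hY₀1 : 1 ≤ Y₀ := by
    by_contra hcon
    push Not at hcon
    have : Z < 1 := Real.rpow_lt_one hY₀0.le hcon (by linarith)
    linarith
  set W : ℕ := ⌊Z / 4⌋₊ with hWdef
  have hW1 : (W : ℝ) ≤ Z / 4 := Nat.floor_le (by positivity)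
  have hW2 : Z ≤ 8 * W := by
    have := Nat.lt_floor_add_one (Z / 4)
    rw [← hWdef] at this
    linarith
  have hW3 : (1 : ℝ) ≤ W := by linarith
  have hW4 : 1 ≤ W := by exact_mod_cast hW3
  -- the variance
  have hYle : (((2 * X + 1 : ℕ)) : ℝ) ≤ 3 * X := by push_cast; linarith
  have hYX : (X : ℝ) ≤ ((2 * X + 1 : ℕ) : ℝ) := by push_cast; linarith
  have hlogY : ℓ ≤ Real.log ((2 * X + 1 : ℕ) : ℝ) := Real.log_le_log hXp hYX
  have hWθ : (((2 * X + 1 : ℕ)) : ℝ) ^ θ ≤ W := by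
    refine le_trans (Real.rpow_le_rpow (by positivity) hYle (by linarith)) ?_
    rw [Real.mul_rpow (by norm_num) hXp.le]
    have h4 : (3 : ℝ) ^ θ ≤ 3 := by
      calc (3 : ℝ) ^ θ ≤ (3 : ℝ) ^ (1 : ℝ) :=
            Real.rpow_le_rpow_of_exponent_le (by norm_num) hθ2
        _ = 3 := Real.rpow_one _
    have h5 : (3 : ℝ) ^ θ * (X : ℝ) ^ θ ≤ 3 * (X : ℝ) ^ θ :=
      mul_le_mul_of_nonneg_right h4 (by positivity)
    linarith
  have hWX : W ≤ 2 * X + 1 := by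
    have h4 : Z ≤ X := by
      have h5 : 1 ≤ q ^ (ρ - 1) := Real.one_le_rpow hq1 (by linarith)
      have h6 : (X : ℝ) ^ P ≤ X := by
        calc (X : ℝ) ^ P ≤ (X : ℝ) ^ (1 : ℝ) :=
              Real.rpow_le_rpow_of_exponent_le (by linarith) hP2
          _ = X := Real.rpow_one _
      have h7 : Z * 1 ≤ Z * q ^ (ρ - 1) := mul_le_mul_of_nonneg_left h5 hZ0.le
      rw [hZq] at h7
      linarith
    have h5 : (W : ℝ) ≤ X := by linarith
    have h6 : W ≤ X := by exact_mod_cast h5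
    omega
  have hsum := hX₀ (2 * X + 1) (by omega) W hWθ hWX
  -- the key relation
  have hkey : (X : ℝ) ≤ 8 * Y₀ * W * ℓ ^ K := by
    have h4 : Y₀ * Z = Y₀ ^ ρ := by
      rw [hZ]
      nth_rewrite 1 [← Real.rpow_one Y₀]
      rw [← Real.rpow_add hY₀0]
      congr 1
      ring
    have h5 : Y₀ ^ ρ * q ^ ρ = X := by
      rw [hY₀, Real.div_rpow hY0.le hq0.le, div_mul_cancel₀ _ (by positivity), hYρ]
    calc (X : ℝ) = Y₀ * Z * q ^ ρ := by rw [h4, h5]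
      _ ≤ Y₀ * Z * ℓ ^ K := mul_le_mul_of_nonneg_left hqK (by positivity)
      _ ≤ Y₀ * (8 * W) * ℓ ^ K := by
          apply mul_le_mul_of_nonneg_right _ (by positivity)
          exact mul_le_mul_of_nonneg_left hW2 hY₀0.le
      _ = 8 * Y₀ * W * ℓ ^ K := by ring
  have hV : ∑ u ∈ range (2 * X + 1), (∑ s ∈ Icc 1 W, (th (u + s) - 1)) ^ 2 ≤
      Y₀ * W * ((W : ℝ) ^ 2 / 4) := by
    refine hsum.trans ?_
    have h5 : (0 : ℝ) < Real.log ((2 * X + 1 : ℕ) : ℝ) := lt_of_lt_of_le hℓ0 hlogY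
    rw [div_le_iff₀ (pow_pos h5 _)]
    have h6 : ℓ ^ (K + 1) ≤ Real.log ((2 * X + 1 : ℕ) : ℝ) ^ (K + 1) :=
      pow_le_pow_left₀ hℓ0.le hlogY _
    have h7 : 3 * (X : ℝ) ≤ Y₀ * W * (1 / 4) * ℓ ^ (K + 1) := by
      have h8 : 0 ≤ Y₀ * W * ℓ ^ K := by positivity
      calc 3 * (X : ℝ) ≤ 3 * (8 * Y₀ * W * ℓ ^ K) := by linarith
        _ = 24 * (Y₀ * W * ℓ ^ K) := by ring
        _ ≤ (ℓ / 4) * (Y₀ * W * ℓ ^ K) := mul_le_mul_of_nonneg_right (by linarith) h8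
        _ = Y₀ * W * (1 / 4) * ℓ ^ (K + 1) := by ring
    calc (((2 * X + 1 : ℕ)) : ℝ) * (W : ℝ) ^ 2 ≤ 3 * X * (W : ℝ) ^ 2 :=
          mul_le_mul_of_nonneg_right hYle (by positivity)
      _ ≤ Y₀ * W * (1 / 4) * ℓ ^ (K + 1) * (W : ℝ) ^ 2 :=
          mul_le_mul_of_nonneg_right h7 (by positivity)
      _ = Y₀ * W * ((W : ℝ) ^ 2 / 4) * ℓ ^ (K + 1) := by ring
      _ ≤ Y₀ * W * ((W : ℝ) ^ 2 / 4) * Real.log ((2 * X + 1 : ℕ) : ℝ) ^ (K + 1) :=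
          mul_le_mul_of_nonneg_left h6 (by positivity)
  -- the large elements
  set 𝒢' := 𝒢.filter (fun g : ℕ => Y₀ ≤ (g : ℝ)) with h𝒢'
  have hcard1 : 4 * Y₀ ≤ 𝒢.card := by
    refine le_trans (le_of_eq ?_) hcard
    rw [hY₀, hq]
    field_simp
  have hcard2 : 2 * Y₀ ≤ 𝒢'.card := by
    have h4 : ((𝒢.filter (fun g : ℕ => ¬ Y₀ ≤ (g : ℝ))).card : ℝ) ≤ Y₀ + 1 := by
      have h5 : 𝒢.filter (fun g : ℕ => ¬ Y₀ ≤ (g : ℝ)) ⊆ range ⌈Y₀⌉₊ := by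
        intro g hg
        have h6 := not_le.1 (mem_filter.1 hg).2
        rw [mem_range]
        exact Nat.lt_ceil.2 h6
      have h6 := card_le_card h5
      rw [card_range] at h6
      have h7 : ((𝒢.filter (fun g : ℕ => ¬ Y₀ ≤ (g : ℝ))).card : ℝ) ≤ (⌈Y₀⌉₊ : ℝ) := by
        exact_mod_cast h6
      exact h7.trans (Nat.ceil_lt_add_one hY₀0.le).le
    have h5 : (𝒢'.card : ℝ) + (𝒢.filter (fun g : ℕ => ¬ Y₀ ≤ (g : ℝ))).card = 𝒢.card := by
      have := Finset.card_filter_add_card_filter_not (s := 𝒢) (fun g : ℕ => Y₀ ≤ (g : ℝ))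
      exact_mod_cast this
    linarith
  -- the windows
  have hwin : ∀ g : ℕ, g ∈ 𝒢' → ∃ a : ℕ, (g : ℝ) ^ ρ ≤ a ∧
      (a : ℝ) + 2 * W + 1 ≤ ((g : ℝ) + 1) ^ ρ := by
    intro g hg
    have hg1 : Y₀ ≤ (g : ℝ) := (mem_filter.1 hg).2
    have hg2 : 1 ≤ g := by
      have : (1 : ℝ) ≤ g := hY₀1.trans hg1
      exact_mod_cast this
    have hg3 : Z ≤ (g : ℝ) ^ (ρ - 1) := Real.rpow_le_rpow hY₀0.le hg1 (by linarith)
    obtain ⟨a, L, ha1, ha2, ha3, ha4⟩ := hLEN ρ hρ1 g hg2 (by linarith)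
    exact ⟨a, ha1, by linarith⟩
  choose! a ha1 ha2 using hwin
  have hmain := counting (Y₀ := Y₀) hℓ hℓ0 h3 hmX hW4 𝒢' a ρ hρ0 ha1 ha2
    (fun g hg => h𝒢 g (mem_filter.1 hg).1) hcard2 hV
  have hmono : ({h : ℕ | h ≤ X ∧ (m + h).Prime ∧ ∃ g ∈ 𝒢', (g : ℝ) ^ ρ ≤ h ∧
      (h : ℝ) + 1 ≤ ((g : ℝ) + 1) ^ ρ} : Set ℕ).ncard ≤
      ({h : ℕ | h ≤ X ∧ (m + h).Prime ∧ ∃ g ∈ 𝒢, (g : ℝ) ^ ρ ≤ h ∧
      (h : ℝ) + 1 ≤ ((g : ℝ) + 1) ^ ρ} : Set ℕ).ncard := by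
    refine Set.ncard_le_ncard ?_ ((Set.finite_Iic X).subset fun h hh => hh.1)
    rintro h ⟨hh1, hh2, g, hg, hh3⟩
    exact ⟨hh1, hh2, g, (mem_filter.1 hg).1, hh3⟩
  refine le_trans ?_ (hmain.trans (by exact_mod_cast hmono))
  rw [div_le_iff₀ (by positivity)]
  have h8 : 0 ≤ Y₀ * W * ℓ ^ K := by positivity
  calc (X : ℝ) ≤ 8 * Y₀ * W * ℓ ^ K := hkey
    _ = 8 * (Y₀ * W * ℓ ^ K) := by ring
    _ ≤ (ℓ / 4) * (Y₀ * W * ℓ ^ K) := mul_le_mul_of_nonneg_right (by linarith) h8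
    _ = Y₀ * (W / (4 * ℓ)) * ℓ ^ (K + 2) := by
        field_simp
        ring

end Pool.Agent.Helper64.FP.Stg
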