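import Pool.Graph.R_pool_sql_team_seeded_620a6dc7.helper616_RP_.Var

/-!
# Project FP (helper64): primes `m, m + [n^c₁], m + [n^c₂], m + [n^c₃]`. Statements of the steps.
-/

set_option autoImplicit false

namespace Pool.Agent.Helper64.FP

open Finset

/-- (STEP) Let `M` be a set of at least `X/(log X)^B` integers `m ≤ X`. Every window of shifts of length `L ≥ X^θ`, `θ > 1/3`, contains an `h`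
with `m + h` prime for at least `X/(log X)^(B+2)` of the `m`.
Proof: `Pool.Agent.helper616_RP.t_VAR` (proved) for `2 X + 1`, `θ' = (θ + 1/3)/2`, `A = B + 2`: the `u ≤ 2 X` with `∑_{s ≤ L} th (u + s) < L/2` are at most
`4 (2X+1)/(log X)^(B+2) ≤ |M|/2`; for the other `m` (`u = m + a`) at least `(L/2)/log(3X) ≥ L/(4 log X)` of the `h ∈ (a, a+L]` are good; sum over `m`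
and pigeonhole over `h`. -/
def S_STEP : Prop := ∀ θ : ℝ, 1 / 3 < θ → ∀ B : ℕ, ∃ X0 : ℕ, ∀ X : ℕ, X0 ≤ X → ∀ M : Finset ℕ, M ⊆ Icc 1 X →
  (X : ℝ) / (Real.log X) ^ B ≤ M.card → ∀ a L : ℕ, a ≤ X → (X : ℝ) ^ θ ≤ L → L ≤ X →
  ∃ h ∈ Ioc a (a + L), (X : ℝ) / (Real.log X) ^ (B + 2) ≤ ((M.filter (fun m => (m + h).Prime)).card : ℝ)

/-- (BASE) Many pairs of primes with the same difference `g ∈ [X^δ₀, X^δ]`. Proof: `G = ⌊X^δ⌋`, blocks `(kG, (k+1)G]`, `k ≤ X/G`; Cauchy-Schwarz and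
Chebyshev (`π(X) ≥ X/(2 log X)`): at least `X G/(64 (log X)²)` pairs `p < p'` of primes `≤ X` in a common block; those with `p' - p < X^δ₀` are at most
`X^(1+δ₀)`; pigeonhole over the difference. -/
def S_BASE : Prop := ∀ δ₀ δ : ℝ, 0 < δ₀ → δ₀ < δ → δ < 1 → ∃ X0 : ℕ, ∀ X : ℕ, X0 ≤ X → ∃ g : ℕ, (X : ℝ) ^ δ₀ ≤ g ∧ (g : ℝ) ≤ (X : ℝ) ^ δ ∧
  (X : ℝ) / (Real.log X) ^ 3 ≤ (((Icc 1 X).filter (fun m => m.Prime ∧ (m + g).Prime)).card : ℝ)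

/-- (LEN) the window of the integers `h` with `g^ρ ≤ h`, `h + 1 ≤ (g+1)^ρ`: `a = ⌈g^ρ⌉₊`, `L = ⌊(g+1)^ρ⌋₊ - 1 - a` (natural subtraction),
`(g+1)^ρ ≥ g^ρ + ρ g^(ρ-1)` (Bernoulli). -/
def S_LEN : Prop := ∀ ρ : ℝ, 1 < ρ → ∀ g : ℕ, 1 ≤ g → 3 ≤ (g : ℝ) ^ (ρ - 1) → ∃ a L : ℕ, (g : ℝ) ^ ρ ≤ a ∧ (a : ℝ) ≤ (g : ℝ) ^ ρ + 1 ∧
  (a : ℝ) + L + 1 ≤ ((g : ℝ) + 1) ^ ρ ∧ (g : ℝ) ^ (ρ - 1) ≤ L + 3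

/-- (STEP2) the step along a curve: given many `m`, and a shift `g ∈ [X^κ₀, X^κ/4]`, there is `h` with `[h^(1/ρ)] = g` on the whole of
`[h, h+1)` and `m + h` prime for many of the `m`. Here `ρ > 1`, `ρ κ ≤ 1`, `κ₀ (ρ - 1) > 1/3`. From (STEP) with `1/3 < θ < κ₀ (ρ - 1)` and (LEN): the
window `(a, a + L]` has `L ≥ g^(ρ-1) - 3 ≥ X^θ` and `a + L ≤ (g+1)^ρ ≤ (X^κ/2)^ρ ≤ X`. -/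
def S_STEP2 : Prop := ∀ ρ κ₀ κ : ℝ, 1 < ρ → 0 < κ₀ → κ₀ < κ → ρ * κ ≤ 1 → 1 / 3 < κ₀ * (ρ - 1) → ∀ B : ℕ, ∃ X0 : ℕ, ∀ X : ℕ, X0 ≤ X →
  ∀ M : Finset ℕ, M ⊆ Icc 1 X → (X : ℝ) / (Real.log X) ^ B ≤ M.card → ∀ g : ℕ, (X : ℝ) ^ κ₀ ≤ g → (g : ℝ) ≤ (X : ℝ) ^ κ / 4 →
  ∃ h : ℕ, (g : ℝ) ^ ρ ≤ h ∧ (h : ℝ) + 1 ≤ ((g : ℝ) + 1) ^ ρ ∧
    (X : ℝ) / (Real.log X) ^ (B + 2) ≤ ((M.filter (fun m => (m + h).Prime)).card : ℝ)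

/-- (FL) `n = ⌈h^(1/c₁)⌉₊` satisfies `h ≤ n^c₁ < h + 1` (as `c₁ ≤ 1`). -/
def S_FL : Prop := ∀ c₁ : ℝ, 0 < c₁ → c₁ ≤ 1 → ∀ h : ℕ, 1 ≤ h → ∃ n : ℕ, (h : ℝ) ≤ (n : ℝ) ^ c₁ ∧ (n : ℝ) ^ c₁ < h + 1 ∧ h ≤ n

/-- (TWO) two exponents. From (BASE), (STEP2) with `γ = c₂/c₁ < 2/3`, `ρ = 1/γ`, `κ = γ`, `κ₀` slightly less than `γ` (`κ₀ (1/γ - 1) > 1/3`), base in
`[X^κ₀, X^κ']`, `κ₀ < κ' < γ`; (FL): `n^c₂ = (n^c₁)^γ ∈ [g, g+1)`. -/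
def S_TWO : Prop := ∀ c₁ c₂ : ℝ, 0 < c₂ → c₂ < 2 / 3 * c₁ → c₁ ≤ 1 → ∀ N : ℕ, ∃ m n : ℕ, N ≤ n ∧ m.Prime ∧
  (m + ⌊(n : ℝ) ^ c₁⌋₊).Prime ∧ (m + ⌊(n : ℝ) ^ c₂⌋₊).Prime

/-- (THREE) three exponents. `γ₂ = c₂/c₁ < 2/3`, `γ₃ = c₃/c₁ < γ₂ - 1/3`. (BASE) gives `g₃ ∈ [X^κ₀, X^κ']` (`κ₀ < κ' < γ₃`, close to `γ₃`); (STEP2) with
`ρ = γ₂/γ₃` gives `g₂`, `g₃^ρ ≤ g₂ < (g₃+1)^ρ`, so that `X^(ρ κ₀) ≤ g₂ ≤ X^γ₂'` (`γ₂' < γ₂`); (STEP2) with `ρ' = 1/γ₂` gives `h`. (FL) for `h`; then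
`n^c₂ = (n^c₁)^γ₂ ∈ [g₂, g₂+1)`, `n^c₃ = (n^c₂)^(γ₃/γ₂) ∈ [g₃, g₃+1)`. -/
def S_THREE : Prop := ∀ c₁ c₂ c₃ : ℝ, 0 < c₃ → c₃ < c₂ - c₁ / 3 → c₂ < 2 / 3 * c₁ → c₁ ≤ 1 → ∀ N : ℕ, ∃ m n : ℕ, N ≤ n ∧ m.Prime ∧
  (m + ⌊(n : ℝ) ^ c₁⌋₊).Prime ∧ (m + ⌊(n : ℝ) ^ c₂⌋₊).Prime ∧ (m + ⌊(n : ℝ) ^ c₃⌋₊).Prime

end Pool.Agent.Helper64.FP
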