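import Pool.Agent.Helper64.FP.Stm

/-!
# Project FP (helper64), second form: `m` fixed, any number of exponents with `c_(j+1) < (2/3) c_j`, `c_0 ≤ 1`. Statements of the steps.
-/

set_option autoImplicit false

namespace Pool.Agent.Helper64.FP

open Finset

/-- (STG) the step along a curve for a FIXED `m`: if many `g ≤ X^(1/ρ)` are given (`ρ > 3/2`), then `m + h` is prime for many `h ≤ X` with
`g^ρ ≤ h`, `h + 1 ≤ (g+1)^ρ` for one of the given `g`.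
Proof. `Y = X^(1/ρ)`, `L = log X`. Drop the `g < Y₀ = Y/(2 L^B)`: at least `|𝒢|/2 ≥ Y/(2 L^B)` remain. (LEN) gives for each `g` a window `(a_g, a_g + L_g]` with
`L_g ≥ g^(ρ-1) - 3 ≥ 2 W`, `W = ⌊Y₀^(ρ-1)/4⌋₊ ≥ (2X)^θ`, where `1/3 < θ < 1 - 1/ρ`. Call `g` bad if fewer than `W/(4 L)` of the `h` of its window have
`m + h` prime. For a bad `g` and each of the `W` numbers `u ∈ [m + a_g, m + a_g + W)` one has `∑_{s ≤ W} th (u+s) ≤ log(2X) W/(4L) ≤ (3/4) W`, so that `u`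
contributes at least `W²/16` to the sum in `Pool.Agent.helper616_RP.t_VAR` (for `2 X`); these `u` are different for different `g`. So
`#bad ≤ 32 X/(W L^A) ≤ |𝒢|/4` for `A` large in terms of `B, ρ`. The good `g ≥ Y₀` give at least `(|𝒢|/4) W/(4L) ≥ X/L^B'` different `h`. -/
def S_STG : Prop := ∀ ρ : ℝ, 3 / 2 < ρ → ∀ m B : ℕ, ∃ B' X0 : ℕ, ∀ X : ℕ, X0 ≤ X → ∀ 𝒢 : Finset ℕ, (∀ g ∈ 𝒢, ((g : ℝ) + 1) ^ ρ ≤ X) →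
  (X : ℝ) ^ (1 / ρ) / (Real.log X) ^ B ≤ 𝒢.card →
  (X : ℝ) / (Real.log X) ^ B' ≤
    (({h : ℕ | h ≤ X ∧ (m + h).Prime ∧ ∃ g ∈ 𝒢, (g : ℝ) ^ ρ ≤ h ∧ (h : ℝ) + 1 ≤ ((g : ℝ) + 1) ^ ρ} : Set ℕ).ncard : ℝ)

/-- (PR) enough primes `m + h`. Chebyshev: `π(X) ≥ X/(2 log X)` minus `m + 1`. -/
def S_PR : Prop := ∀ m : ℕ, ∃ X0 : ℕ, ∀ X : ℕ, X0 ≤ X →
  (X : ℝ) / (Real.log X) ^ 2 ≤ (({h : ℕ | h ≤ X ∧ (m + h).Prime} : Set ℕ).ncard : ℝ)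

/-- the pattern: for all real `y ∈ [h, h+1)` the numbers `m + [y^(c i / c j)]`, `j ≤ i < l`, are prime -/
def Pat (c : ℕ → ℝ) (l m j h : ℕ) : Prop :=
  ∀ y : ℝ, (h : ℝ) ≤ y → y < (h : ℝ) + 1 → ∀ i : ℕ, j ≤ i → i < l → (m + ⌊y ^ (c i / c j)⌋₊).Prime

/-- (IND) many `h` have the pattern. Induction on `l - 1 - j` (from `j = l - 1`: (PR), as `⌊y⌋₊ = h`), step `j + 1 → j` by (STG) with `ρ = c j / c (j+1) > 3/2`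
and `𝒢 = {g | Pat (j+1) g, (g+1)^ρ ≤ X}` (apply the induction hypothesis to `⌊X^(1/ρ)⌋₊ - 1`); if `g^ρ ≤ h ≤ y < h + 1 ≤ (g+1)^ρ` then
`y^(1/ρ) ∈ [g, g+1)` and `y^(c i/c j) = (y^(1/ρ))^(c i/c (j+1))` for `i > j`; for `i = j` `⌊y⌋₊ = h`. -/
def S_IND : Prop := ∀ (c : ℕ → ℝ) (l m : ℕ), (∀ i < l, 0 < c i) → (∀ i, i + 1 < l → c (i + 1) < 2 / 3 * c i) → ∀ j < l,
  ∃ B X0 : ℕ, ∀ X : ℕ, X0 ≤ X → (X : ℝ) / (Real.log X) ^ B ≤ (({h : ℕ | h ≤ X ∧ Pat c l m j h} : Set ℕ).ncard : ℝ)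

/-- (RES) the theorem. From (IND) with `j = 0`, a pattern `h ≥ N + 1` exists ((IND) gives infinitely many), and (FL) gives `n ≥ h` with
`n^(c 0) ∈ [h, h+1)`; `n^(c i) = (n^(c 0))^(c i/c 0)`. -/
def S_RES : Prop := ∀ (c : ℕ → ℝ) (l m : ℕ), (∀ i < l, 0 < c i) → c 0 ≤ 1 → (∀ i, i + 1 < l → c (i + 1) < 2 / 3 * c i) →
  ∀ N : ℕ, ∃ n : ℕ, N ≤ n ∧ ∀ i < l, (m + ⌊(n : ℝ) ^ c i⌋₊).Prime

end Pool.Agent.Helper64.FP
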