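import Pool.Agent.Helper64.FP.Stm

/-!
# FP: module THREE (written by helper18)
-/

set_option autoImplicit false

namespace Pool.Agent.Helper64.FP.THREE

open Finset Filter

lemma ev {y : ℝ} (hy : 0 < y) (C : ℝ) : ∃ X0 : ℕ, ∀ X : ℕ, X0 ≤ X → C ≤ (X : ℝ) ^ y := by
  have h := ((tendsto_rpow_atTop hy).comp tendsto_natCast_atTop_atTop).eventually_ge_atTop C
  obtain ⟨X0, hX0⟩ := eventually_atTop.1 h
  exact ⟨X0, fun X hX => hX0 X hX⟩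

lemma back {ρ A : ℝ} (hρ : 0 < ρ) {g h : ℕ} (h1 : (g : ℝ) ^ ρ ≤ h) (h2 : (h : ℝ) + 1 ≤ ((g : ℝ) + 1) ^ ρ)
    (hA1 : (h : ℝ) ≤ A) (hA2 : A < h + 1) : (g : ℝ) ≤ A ^ (1 / ρ) ∧ A ^ (1 / ρ) < g + 1 := by
  have hA0 : 0 ≤ A := le_trans (Nat.cast_nonneg h) hA1
  have hr : 0 < 1 / ρ := one_div_pos.2 hρ
  constructor
  · have h3 := Real.rpow_le_rpow (by positivity) (h1.trans hA1) hr.le
    rwa [← Real.rpow_mul (Nat.cast_nonneg g), mul_one_div_cancel hρ.ne', Real.rpow_one] at h3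
  · have h3 := Real.rpow_lt_rpow hA0 (hA2.trans_le h2) hr
    rwa [← Real.rpow_mul (by positivity), mul_one_div_cancel hρ.ne', Real.rpow_one] at h3

lemma exists_theta {a b : ℝ} (ha : 1 / 3 < a) (hb : 1 / 3 < b) :
    ∃ θ : ℝ, 0 < θ ∧ θ < 1 ∧ 1 / 3 < θ * a ∧ 1 / 3 < θ * b := by
  have hd : 1 / 3 < min a b := lt_min ha hb
  have hd0 : 0 < min a b := by linarith
  have h1 : 1 / (3 * min a b) < 1 := by
    rw [div_lt_one (by positivity)]; linarith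
  have h0 : 0 < 1 / (3 * min a b) := by positivity
  have hm : 1 / 3 < (1 + 1 / (3 * min a b)) / 2 * min a b := by
    have : (1 + 1 / (3 * min a b)) / 2 * min a b = (min a b + 1 / 3) / 2 := by
      field_simp
    rw [this]; linarith
  refine ⟨(1 + 1 / (3 * min a b)) / 2, by positivity, by linarith, ?_, ?_⟩
  · exact hm.trans_le (mul_le_mul_of_nonneg_left (min_le_left _ _) (by positivity))
  · exact hm.trans_le (mul_le_mul_of_nonneg_left (min_le_right _ _) (by positivity))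

theorem main (hB : S_BASE) (hS : S_STEP2) (hF : S_FL) : S_THREE := by
  intro c₁ c₂ c₃ hc₃ h32 h21 hc₁ N
  have hc₁0 : 0 < c₁ := by linarith
  have hc₂0 : 0 < c₂ := by linarith
  obtain ⟨γ₂, hγ₂⟩ : ∃ γ₂, γ₂ = c₂ / c₁ := ⟨_, rfl⟩
  obtain ⟨γ₃, hγ₃⟩ : ∃ γ₃, γ₃ = c₃ / c₁ := ⟨_, rfl⟩
  have e2 : c₁ * γ₂ = c₂ := by rw [hγ₂]; field_simp
  have e3 : c₁ * γ₃ = c₃ := by rw [hγ₃]; field_simp
  have g2pos : 0 < γ₂ := by rw [hγ₂]; positivity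
  have g3pos : 0 < γ₃ := by rw [hγ₃]; positivity
  have g2lt : γ₂ < 2 / 3 := by rw [hγ₂, div_lt_iff₀ hc₁0]; exact h21
  have g32 : 1 / 3 < γ₂ - γ₃ := by
    rw [hγ₂, hγ₃, ← sub_div, lt_div_iff₀ hc₁0]; linarith
  obtain ⟨θ, hθ0, hθ1, hθa, hθb⟩ := exists_theta g32 (show 1 / 3 < 1 - γ₂ by linarith)
  obtain ⟨η, hη⟩ : ∃ η, η = (1 + θ) / 2 := ⟨_, rfl⟩
  have hη1 : η < 1 := by linarith
  have hθη : θ < η := by linarith
  have hη0 : 0 < η := by linarith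
  obtain ⟨ρ, hρ⟩ : ∃ ρ, ρ = γ₂ / γ₃ := ⟨_, rfl⟩
  have hρg : ρ * γ₃ = γ₂ := by rw [hρ]; field_simp
  have hρ1 : 1 < ρ := by rw [hρ, lt_div_iff₀ g3pos]; linarith
  have hρ0 : 0 < ρ := by linarith
  obtain ⟨X1, hX1⟩ := hB (θ * γ₃) (η * γ₃) (by positivity) (by gcongr) (by nlinarith)
  obtain ⟨X2, hX2⟩ := hS ρ (θ * γ₃) γ₃ hρ1 (by positivity) (by nlinarith) (by rw [hρg]; linarith)
    (by rw [show θ * γ₃ * (ρ - 1) = θ * (ρ * γ₃ - γ₃) by ring, hρg]; exact hθa) 3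
  obtain ⟨X3, hX3⟩ := hS (1 / γ₂) (θ * γ₂) γ₂ (by rw [lt_div_iff₀ g2pos]; linarith) (by positivity) (by nlinarith)
    (by rw [one_div_mul_cancel g2pos.ne'])
    (by rw [show θ * γ₂ * (1 / γ₂ - 1) = θ * (γ₂ * (1 / γ₂) - γ₂) by ring, mul_one_div_cancel g2pos.ne']; exact hθb) 5
  obtain ⟨X4, hX4⟩ := ev (show 0 < (1 - η) * γ₃ by nlinarith) 4
  obtain ⟨X5, hX5⟩ := ev (show 0 < (1 - η) * γ₂ by nlinarith) (4 * 2 ^ ρ)
  obtain ⟨X6, hX6⟩ := ev (show 0 < θ * γ₃ by positivity) ((N : ℝ) + 1)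
  obtain ⟨X, hX⟩ : ∃ X : ℕ, X1 ≤ X ∧ X2 ≤ X ∧ X3 ≤ X ∧ X4 ≤ X ∧ X5 ≤ X ∧ X6 ≤ X ∧ 2 ≤ X :=
    ⟨X1 + X2 + X3 + X4 + X5 + X6 + 2, by omega, by omega, by omega, by omega, by omega, by omega, by omega⟩
  obtain ⟨i1, i2, i3, i4, i5, i6, i7⟩ := hX
  have hXr : (2 : ℝ) ≤ X := by exact_mod_cast i7
  have hX0 : (0 : ℝ) < X := by linarith
  have h4 := hX4 X i4
  have h5 := hX5 X i5
  have h6 := hX6 X i6
  -- the base
  obtain ⟨g₃, hg3a, hg3b, hM1⟩ := hX1 X i1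
  have hg31 : (1 : ℝ) ≤ g₃ := by
    have : (0 : ℝ) ≤ N := Nat.cast_nonneg N
    linarith
  set M1 := (Icc 1 X).filter (fun m => m.Prime ∧ (m + g₃).Prime) with hM1d
  -- the first step
  have hup1 : (g₃ : ℝ) ≤ (X : ℝ) ^ γ₃ / 4 := by
    rw [le_div_iff₀ (by norm_num)]
    calc (g₃ : ℝ) * 4 ≤ (X : ℝ) ^ (η * γ₃) * (X : ℝ) ^ ((1 - η) * γ₃) := by gcongr
      _ = (X : ℝ) ^ γ₃ := by rw [← Real.rpow_add hX0]; congr 1; ring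
  obtain ⟨g₂, hg2a, hg2b, hM2⟩ := hX2 X i2 M1 (filter_subset _ _) hM1 g₃ hg3a hup1
  set M2 := M1.filter (fun m => (m + g₂).Prime) with hM2d
  -- the second step
  have hlo2 : (X : ℝ) ^ (θ * γ₂) ≤ g₂ := by
    refine le_trans ?_ hg2a
    calc (X : ℝ) ^ (θ * γ₂) = ((X : ℝ) ^ (θ * γ₃)) ^ ρ := by
          rw [← Real.rpow_mul hX0.le, mul_assoc, mul_comm γ₃ ρ, hρg]
      _ ≤ (g₃ : ℝ) ^ ρ := Real.rpow_le_rpow (by positivity) hg3a hρ0.le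
  have hup2 : (g₂ : ℝ) ≤ (X : ℝ) ^ γ₂ / 4 := by
    rw [le_div_iff₀ (by norm_num)]
    have h7 : (g₂ : ℝ) ≤ (2 * (X : ℝ) ^ (η * γ₃)) ^ ρ := by
      calc (g₂ : ℝ) ≤ (g₂ : ℝ) + 1 := by linarith
        _ ≤ ((g₃ : ℝ) + 1) ^ ρ := hg2b
        _ ≤ (2 * (X : ℝ) ^ (η * γ₃)) ^ ρ := Real.rpow_le_rpow (by positivity) (by linarith) hρ0.le
    rw [Real.mul_rpow (by norm_num) (by positivity), ← Real.rpow_mul hX0.le, mul_assoc, mul_comm γ₃ ρ, hρg] at h7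
    calc (g₂ : ℝ) * 4 ≤ (2 ^ ρ * (X : ℝ) ^ (η * γ₂)) * 4 := by gcongr
      _ = (X : ℝ) ^ (η * γ₂) * (4 * 2 ^ ρ) := by ring
      _ ≤ (X : ℝ) ^ (η * γ₂) * (X : ℝ) ^ ((1 - η) * γ₂) := by gcongr
      _ = (X : ℝ) ^ γ₂ := by rw [← Real.rpow_add hX0]; congr 1; ring
  obtain ⟨h, hha, hhb, hM3⟩ := hX3 X i3 M2 ((filter_subset _ _).trans (filter_subset _ _)) hM2 g₂ hlo2 hup2
  set M3 := M2.filter (fun m => (m + h).Prime) with hM3d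
  -- a member
  have hpos : 0 < M3.card := by
    have hl : 0 < Real.log X := Real.log_pos (by linarith)
    have : (0 : ℝ) < M3.card := lt_of_lt_of_le (by positivity) hM3
    exact_mod_cast this
  obtain ⟨m, hm⟩ := card_pos.1 hpos
  rw [hM3d, mem_filter, hM2d, mem_filter, hM1d, mem_filter] at hm
  obtain ⟨⟨⟨_, hmp, hm3⟩, hm2⟩, hmh⟩ := hm
  -- sizes
  have hg21 : (g₃ : ℝ) ≤ g₂ := by
    refine le_trans ?_ hg2a
    calc (g₃ : ℝ) = (g₃ : ℝ) ^ (1 : ℝ) := (Real.rpow_one _).symm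
      _ ≤ (g₃ : ℝ) ^ ρ := Real.rpow_le_rpow_of_exponent_le hg31 hρ1.le
  have hhg : (g₂ : ℝ) ≤ h := by
    refine le_trans ?_ hha
    calc (g₂ : ℝ) = (g₂ : ℝ) ^ (1 : ℝ) := (Real.rpow_one _).symm
      _ ≤ (g₂ : ℝ) ^ (1 / γ₂) := Real.rpow_le_rpow_of_exponent_le (by linarith)
          (by rw [le_div_iff₀ g2pos]; linarith)
  have hhN : N + 1 ≤ h := by
    have : ((N + 1 : ℕ) : ℝ) ≤ h := by push_cast; linarith
    exact_mod_cast this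
  obtain ⟨n, hn1, hn2, hn3⟩ := hF c₁ hc₁0 hc₁ h (by omega)
  have hn0 : (0 : ℝ) ≤ n := Nat.cast_nonneg n
  have b2 := back (ρ := 1 / γ₂) (by positivity) hha hhb hn1 hn2
  rw [one_div_one_div, ← Real.rpow_mul hn0, e2] at b2
  have b3 := back (ρ := ρ) hρ0 hg2a hg2b b2.1 b2.2
  rw [← Real.rpow_mul hn0, show c₂ * (1 / ρ) = c₃ by
    rw [← e2, ← e3, ← hρg]; field_simp] at b3
  refine ⟨m, n, by omega, hmp, ?_, ?_, ?_⟩
  · rw [(Nat.floor_eq_iff (by positivity)).2 ⟨hn1, hn2⟩]; exact hmh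
  · rw [(Nat.floor_eq_iff (by positivity)).2 b2]; exact hm2
  · rw [(Nat.floor_eq_iff (by positivity)).2 b3]; exact hm3

end Pool.Agent.Helper64.FP.THREE
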